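import Pool.Agent.Y692.QS.Ei
import Pool.Agent.Q283.TW.Field

/-!
# A Galois extension of the rationals with given cube roots of Eisenstein integers
-/

set_option autoImplicit false

namespace Q283.TC

open Polynomial
open Pool.Agent.Y692.QS (Ei w nr hom hom_apply)

theorem deg6 (a b : ℚ) : (X ^ 6 - C a * X ^ 3 + C b : ℚ[X]).natDegree = 6 := by
  compute_degree!

theorem exists_field (T : Finset Ei) : ∃ (L : Type) (_ : Field L) (_ : NumberField L)
    (_ : IsGalois ℚ L) (z : L) (hz : z * z = -1 - z) (s : Ei → L),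
      ∀ q ∈ T, (s q) ^ 3 = hom z hz q := by
  classical
  set h : ℚ[X] := X ^ 2 + X + 1 with hh
  set g : Ei → ℚ[X] := fun q => X ^ 6 - C ((2 * q.re - q.im : ℤ) : ℚ) * X ^ 3 + C ((nr q : ℤ) : ℚ)
    with hg
  set f : ℚ[X] := h * ∏ a ∈ T, g a with hf
  have hhd : h.natDegree = 2 := by rw [hh]; compute_degree!
  have hgd : ∀ a, (g a).natDegree = 6 := fun a => deg6 _ _
  have hh0 : h ≠ 0 := by intro h0; rw [h0] at hhd; simp at hhd
  have hg0 : ∀ a, g a ≠ 0 := by intro a h0; have := hgd a; rw [h0] at this; simp at this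
  have hf0 : f ≠ 0 := mul_ne_zero hh0 (Finset.prod_ne_zero_iff.2 fun a _ => hg0 a)
  obtain ⟨L, hL, hN, hG, hsp⟩ := Q283.TW.gen_split_rat f
  have hfm : f.map (algebraMap ℚ L) ≠ 0 := by
    rwa [Ne, Polynomial.map_eq_zero]
  have key : ∀ u : L[X], u ∣ f.map (algebraMap ℚ L) → u.natDegree ≠ 0 →
      ∃ x : L, u.eval x = 0 := by
    intro u hu hd
    have h1 := hsp.of_dvd hfm hu
    refine h1.exists_eval_eq_zero ?_
    intro h2
    exact hd (natDegree_eq_of_degree_eq_some h2)
  obtain ⟨z, hz0⟩ := key (h.map (algebraMap ℚ L)) (Polynomial.map_dvd _ (Dvd.intro _ rfl))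
    (by rw [natDegree_map, hhd]; norm_num)
  have hz : z * z = -1 - z := by
    rw [hh] at hz0
    simp at hz0
    linear_combination hz0
  have hs : ∀ a : Ei, ∃ x : L, a ∈ T → x ^ 3 = hom z hz a := by
    intro a
    by_cases ha : a ∈ T
    · have hdv : (X ^ 3 - C (hom z hz a) : L[X]) ∣ (g a).map (algebraMap ℚ L) := by
        refine Dvd.intro (X ^ 3 - C (hom z hz (star a))) ?_
        have e1 : hom z hz a + hom z hz (star a) = ((2 * a.re - a.im : ℤ) : L) := by
          rw [hom_apply, hom_apply, Pool.Agent.Y692.QS.star_re, Pool.Agent.Y692.QS.star_im]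
          push_cast
          ring
        have e2 : hom z hz a * hom z hz (star a) = ((nr a : ℤ) : L) := by
          rw [← map_mul, Pool.Agent.Y692.QS.mul_star, map_intCast]
        have e3 : (g a).map (algebraMap ℚ L) =
            X ^ 6 - C (hom z hz a + hom z hz (star a)) * X ^ 3 +
              C (hom z hz a * hom z hz (star a)) := by
          rw [e1, e2, hg]
          simp
        rw [e3, C_add, C_mul]
        ring
      obtain ⟨x, hx⟩ := key (X ^ 3 - C (hom z hz a)) (hdv.trans (Polynomial.map_dvd _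
        ((Finset.dvd_prod_of_mem g ha).mul_left _))) (by rw [natDegree_X_pow_sub_C]; norm_num)
      refine ⟨x, fun _ => ?_⟩
      simp at hx
      linear_combination hx
    · exact ⟨0, fun h => absurd h ha⟩
  choose s hs' using hs
  exact ⟨L, hL, hN, hG, z, hz, s, fun a ha => hs' a ha⟩

end Q283.TC
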