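import Pool.Agent.Q283.TC.Gal

/-!
# The joint law of the cubic residue symbols of primary primes
-/

set_option autoImplicit false
set_option linter.unusedSectionVars false
set_option linter.style.haveILetI false

namespace Q283.TC

open NumberField Filter Topology Finset Pool.Agent.W401.Cheb
open Pool.Agent.Y692.QS (Ei w nr hom hom_apply hom_w w_cube mul_star nr_nonneg nr_zero_iff nr_mul)
open Pool.Agent.Y715.T.Rec (cs nn)
open Pool.Agent.Y715.T.RecG (Pq)

/-- the number of the primary primes of norm at most `X` with the property `T` -/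
noncomputable def NT (T : Ei → Prop) (X : ℕ) : ℕ := {π : Ei | Pq π ∧ nr π ≤ X ∧ T π}.ncard

theorem pq_three {π : Ei} (h : Pq π) : ¬ π ∣ 3 := h.norm

/-- a primary prime whose norm is not a prime number is a rational integer -/
theorem inert_form {π : Ei} (h : Pq π) (hn : ¬ (nr π).natAbs.Prime) : π.im = 0 := by
  set n := (nr π).natAbs with hnd
  have hnr : (n : ℤ) = nr π := Int.natAbs_of_nonneg (nr_nonneg π)
  have hn0 : n ≠ 0 := by
    intro h0
    apply h.prime.ne_zero
    rw [← nr_zero_iff, ← hnr, h0]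
    rfl
  have hn1 : n ≠ 1 := by
    intro h0
    apply h.prime.not_isUnit
    rw [Pool.Agent.Y692.QS.isUnit_iff, ← hnr, h0]
    rfl
  have h1 : ∃ r : ℕ, r.Prime ∧ π ∣ (r : Ei) ∧ r ∣ n := by
    have h2 : π ∣ ((n.primeFactorsList.prod : ℕ) : Ei) := by
      rw [Nat.prod_primeFactorsList hn0]
      refine ⟨star π, ?_⟩
      rw [mul_star, ← hnr]
      push_cast
      rfl
    rw [Nat.cast_list_prod] at h2
    obtain ⟨a, ha, hd⟩ := (h.prime.dvd_prod_iff).1 h2
    obtain ⟨p, hp, rfl⟩ := List.mem_map.1 ha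
    exact ⟨p, Nat.prime_of_mem_primeFactorsList hp, hd, Nat.dvd_of_mem_primeFactorsList hp⟩
  obtain ⟨r, hr, hd, hrn⟩ := h1
  obtain ⟨c, hc⟩ := hd
  have h2 : n * (nr c).natAbs = r ^ 2 := by
    rw [hnd, ← Int.natAbs_mul, ← nr_mul, ← hc, Pool.Agent.Y692.QS.nr_nat, Int.natAbs_pow,
      Int.natAbs_natCast]
  obtain ⟨i, hi, hi2⟩ := (Nat.dvd_prime_pow hr).1 (Dvd.intro _ h2)
  have hi2' : i = 2 := by
    interval_cases i
    · exact absurd (by rw [hi2, pow_zero]) hn1
    · rw [pow_one] at hi2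
      rw [hi2] at hn
      exact absurd hr hn
    · rfl
  rw [hi2'] at hi2
  have hcu : IsUnit c := by
    rw [Pool.Agent.Y692.QS.isUnit_iff]
    have h3 : (nr c).natAbs = 1 := by
      rw [hi2] at h2
      have hr0 : 0 < r ^ 2 := by positivity [hr.pos]
      exact Nat.eq_of_mul_eq_mul_left hr0 (by rw [h2, mul_one])
    have := nr_nonneg c
    omega
  have hass : Associated π (r : Ei) := by
    obtain ⟨u, hu⟩ := hcu
    exact ⟨u, by rw [hu, ← hc]⟩
  have hrp : Prime (r : Ei) := hass.prime h.prime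
  have hr3 : r % 3 = 1 ∨ r % 3 = 2 := by
    have : ¬ 3 ∣ r := by
      intro h3
      have h4 : r = 3 := ((Nat.prime_dvd_prime_iff_eq Nat.prime_three hr).1 h3).symm
      apply pq_three h
      rw [h4] at hass
      exact_mod_cast hass.dvd
    omega
  rcases hr3 with h3 | h3
  · have hpq : Pq (r : Ei) := by
      refine ⟨hrp, ?_⟩
      refine ⟨((r / 3 : ℕ) : Ei), ?_⟩
      have : r = 3 * (r / 3) + 1 := by omega
      have e : ((r : ℕ) : Ei) = ((3 * (r / 3) + 1 : ℕ) : Ei) := by rw [← this]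
      rw [e]
      push_cast
      ring
    have := pq_eq_of_dvd hpq h hass.dvd
    rw [this]
    simp
  · have hpq : Pq (-(r : Ei)) := by
      refine ⟨hrp.neg, ?_⟩
      refine ⟨-((r / 3 + 1 : ℕ) : Ei), ?_⟩
      have : r = 3 * (r / 3) + 2 := by omega
      have e : ((r : ℕ) : Ei) = ((3 * (r / 3) + 2 : ℕ) : Ei) := by rw [← this]
      rw [e]
      push_cast
      ring
    have := pq_eq_of_dvd hpq h (dvd_neg.2 hass.dvd)
    rw [this]
    simp

theorem few_inert (T : Ei → Prop) (X : ℕ) :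
    {π : Ei | Pq π ∧ nr π ≤ X ∧ T π ∧ ¬ (nr π).natAbs.Prime}.ncard ≤ 2 * X.sqrt + 1 := by
  have h1 : {π : Ei | Pq π ∧ nr π ≤ X ∧ T π ∧ ¬ (nr π).natAbs.Prime} ⊆
      (((Finset.Icc (-(X.sqrt : ℤ)) X.sqrt).image fun n : ℤ => (⟨n, 0⟩ : Ei) : Finset Ei) :
        Set Ei) := by
    rintro π ⟨h1, h2, -, h4⟩
    have h5 := inert_form h1 h4
    rw [Finset.mem_coe, Finset.mem_image]
    refine ⟨π.re, ?_, ?_⟩
    · unfold nr at h2
      rw [h5] at h2
      have h6 : π.re.natAbs ^ 2 ≤ X := by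
        have : ((π.re.natAbs ^ 2 : ℕ) : ℤ) ≤ X := by
          push_cast
          rw [sq_abs]
          linarith
        exact_mod_cast this
      have h7 : π.re.natAbs ≤ X.sqrt := Nat.le_sqrt'.2 h6
      rw [Finset.mem_Icc]
      omega
    · ext
      · rfl
      · exact h5.symm
  have h2 := Set.ncard_le_ncard h1 (Finset.finite_toSet _)
  rw [Set.ncard_coe_finset] at h2
  refine h2.trans (Finset.card_image_le.trans ?_)
  rw [Int.card_Icc]
  omega

theorem NT_split (T : Ei → Prop) (X : ℕ) :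
    NT T X = ∑ p ∈ pr X, FT T p +
      {π : Ei | Pq π ∧ nr π ≤ X ∧ T π ∧ ¬ (nr π).natAbs.Prime}.ncard := by
  classical
  have hf := fin_nr X
  set F : Finset Ei := hf.toFinset.filter fun π => Pq π ∧ T π with hF
  have hmem : ∀ π, π ∈ F ↔ Pq π ∧ nr π ≤ X ∧ T π := by
    intro π
    rw [hF, Finset.mem_filter, Set.Finite.mem_toFinset]
    constructor
    · rintro ⟨a, b, c⟩; exact ⟨b, a, c⟩
    · rintro ⟨b, a, c⟩; exact ⟨a, b, c⟩
  have e1 : NT T X = F.card := by
    unfold NT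
    rw [← Set.ncard_coe_finset]
    congr 1
    ext π
    rw [Finset.mem_coe, hmem]
    rfl
  have e2 : {π : Ei | Pq π ∧ nr π ≤ X ∧ T π ∧ ¬ (nr π).natAbs.Prime}.ncard =
      (F.filter fun π => ¬ (nr π).natAbs.Prime).card := by
    rw [← Set.ncard_coe_finset]
    congr 1
    ext π
    rw [Finset.mem_coe, Finset.mem_filter, hmem]
    constructor
    · rintro ⟨a, b, c, d⟩; exact ⟨⟨a, b, c⟩, d⟩
    · rintro ⟨⟨a, b, c⟩, d⟩; exact ⟨a, b, c, d⟩
  have e3 : (F.filter fun π => (nr π).natAbs.Prime).card = ∑ p ∈ pr X, FT T p := by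
    rw [Finset.card_eq_sum_card_fiberwise (f := fun π => (nr π).natAbs) (t := pr X)]
    · refine Finset.sum_congr rfl fun p hp => ?_
      unfold FT
      rw [mem_pr] at hp
      refine (Nat.subtype_card _ fun π => ?_).symm
      rw [Finset.mem_filter, Finset.mem_filter, hmem]
      have h2 := nr_nonneg π
      constructor
      · rintro ⟨⟨⟨a, b, c⟩, d⟩, e⟩
        exact ⟨a, by omega, c⟩
      · rintro ⟨a, b, c⟩
        have h5 : (nr π).natAbs = p := by omega
        exact ⟨⟨⟨a, by omega, c⟩, by rw [h5]; exact hp.2⟩, h5⟩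
    · intro π hπ
      rw [Finset.mem_coe, Finset.mem_filter, hmem] at hπ
      rw [Finset.mem_coe, mem_pr]
      refine ⟨?_, hπ.2⟩
      have := hπ.1.2.1
      have h2 := nr_nonneg π
      show (nr π).natAbs ≤ X
      omega
  rw [e1, e2, ← e3, Finset.card_filter_add_card_filter_not]

theorem sqrt_div_pc : Tendsto (fun X : ℕ => ((2 * X.sqrt + 1 : ℕ) : ℝ) / (Nat.primeCounting X : ℝ))
    atTop (𝓝 0) := by
  have hlo : ∀ᶠ X : ℕ in atTop, (X : ℝ) / (2 * Real.log X) ≤ (Nat.primeCounting X : ℝ) := by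
    have h1 : Tendsto (fun X : ℕ => Real.log ((X : ℝ) + 1) / (X : ℝ)) atTop (𝓝 0) := by
      have h2 : Tendsto (fun x : ℝ => Real.log (x + 1) / x) atTop (𝓝 0) := by
        have h3 : Tendsto (fun x : ℝ => Real.log (x + 1) / (x + 1) * ((x + 1) / x)) atTop
            (𝓝 (0 * 1)) := by
          refine Tendsto.mul ?_ ?_
          · exact (Real.isLittleO_log_id_atTop.tendsto_div_nhds_zero).comp
              (tendsto_atTop_add_const_right _ 1 tendsto_id)
          · have h4 : Tendsto (fun x : ℝ => 1 + x⁻¹) atTop (𝓝 (1 + 0)) :=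
              tendsto_const_nhds.add tendsto_inv_atTop_zero
            rw [add_zero] at h4
            refine h4.congr' ?_
            filter_upwards [eventually_gt_atTop 0] with x hx
            field_simp
        rw [zero_mul] at h3
        refine h3.congr' ?_
        filter_upwards [eventually_gt_atTop 0] with x hx
        have : x + 1 ≠ 0 := by linarith
        field_simp
      exact h2.comp tendsto_natCast_atTop_atTop
    have h5 : ∀ᶠ X : ℕ in atTop, Real.log ((X : ℝ) + 1) / (X : ℝ) < 0.1 :=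
      h1.eventually_lt_const (by norm_num)
    filter_upwards [h5, eventually_ge_atTop 2] with X h6 h7
    have hX : (2 : ℝ) ≤ X := by exact_mod_cast h7
    have hlog : 0 < Real.log X := Real.log_pos (by linarith)
    have h8 := Chebyshev.pi_ge X
    refine le_trans ?_ h8
    rw [div_lt_iff₀ (by linarith)] at h6
    rw [div_le_div_iff₀ (by positivity) hlog]
    have h9 := Real.log_two_gt_d9
    nlinarith [mul_pos (show (0 : ℝ) < X by linarith) hlog]
  have hup : Tendsto (fun X : ℕ => 3 * (2 * (Real.log X / (X : ℝ) ^ (1 / 2 : ℝ)))) atTop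
      (𝓝 (3 * (2 * 0))) := by
    refine Tendsto.const_mul _ (Tendsto.const_mul _ ?_)
    exact ((isLittleO_log_rpow_atTop (by norm_num : (0 : ℝ) < 1 / 2)).tendsto_div_nhds_zero).comp
      tendsto_natCast_atTop_atTop
  rw [mul_zero, mul_zero] at hup
  refine squeeze_zero' (Eventually.of_forall fun X => by positivity) ?_ hup
  filter_upwards [hlo, eventually_ge_atTop 2] with X h1 h2
  have hX : (2 : ℝ) ≤ X := by exact_mod_cast h2
  have hX0 : (0 : ℝ) < X := by linarith
  have hlog : 0 < Real.log X := Real.log_pos (by linarith)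
  have hsq : ((X.sqrt : ℕ) : ℝ) ≤ (X : ℝ) ^ (1 / 2 : ℝ) := by
    rw [← Real.sqrt_eq_rpow]
    exact Real.nat_sqrt_le_real_sqrt
  have hone : (1 : ℝ) ≤ (X : ℝ) ^ (1 / 2 : ℝ) := Real.one_le_rpow (by linarith) (by norm_num)
  have hpos : 0 < (X : ℝ) / (2 * Real.log X) := by positivity
  have hmul : (X : ℝ) ^ (1 / 2 : ℝ) * (X : ℝ) ^ (1 / 2 : ℝ) = X := by
    rw [← Real.rpow_add hX0]
    norm_num
  calc ((2 * X.sqrt + 1 : ℕ) : ℝ) / (Nat.primeCounting X : ℝ)
      ≤ (3 * (X : ℝ) ^ (1 / 2 : ℝ)) / ((X : ℝ) / (2 * Real.log X)) := by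
        refine div_le_div₀ (by positivity) ?_ hpos h1
        push_cast
        linarith
    _ = 3 * (2 * (Real.log X / (X : ℝ) ^ (1 / 2 : ℝ))) := by
        have h3 : (X : ℝ) ^ (1 / 2 : ℝ) ≠ 0 := by positivity
        field_simp
        rw [sq, hmul]

/-- the mean value of the primes of degree one determines the number of all primes -/
theorem NT_tendsto {T : Ei → Prop} {c : ℝ} (h : Tendsto (M fun p => (FT T p : ℝ)) atTop (𝓝 c)) :
    Tendsto (fun X : ℕ => (NT T X : ℝ) / (Nat.primeCounting X : ℝ)) atTop (𝓝 c) := by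
  have h1 : Tendsto (fun X : ℕ =>
      (({π : Ei | Pq π ∧ nr π ≤ X ∧ T π ∧ ¬ (nr π).natAbs.Prime}.ncard : ℕ) : ℝ) /
        (Nat.primeCounting X : ℝ)) atTop (𝓝 0) := by
    refine squeeze_zero (fun X => by positivity) (fun X => ?_) sqrt_div_pc
    refine div_le_div_of_nonneg_right ?_ (Nat.cast_nonneg _)
    exact_mod_cast few_inert T X
  have h2 := h.add h1
  rw [add_zero] at h2
  refine h2.congr fun X => ?_
  rw [NT_split]
  unfold M
  push_cast
  rw [add_div]

theorem mod_three {π : Ei} {p : ℕ} (h : nr π = p) (hp : p.Prime) (h3 : p ≠ 3) : p % 3 = 1 := by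
  have h1 : ¬ 3 ∣ p := fun h4 => h3 ((Nat.prime_dvd_prime_iff_eq Nat.prime_three hp).1 h4).symm
  have h2 : (p : ℤ) = (π.re + π.im) ^ 2 - 3 * (π.re * π.im) := by
    rw [← h]; unfold nr; ring
  set s := π.re + π.im with hs
  have h4 : s % 3 = 0 ∨ s % 3 = 1 ∨ s % 3 = 2 := by omega
  have h5 : (p : ℤ) % 3 = (s ^ 2) % 3 := by omega
  rcases h4 with h4 | h4 | h4 <;> rw [pow_two, Int.mul_emod, h4] at h5 <;> norm_num at h5 <;> omega

theorem exists_above {L : Type} [Field L] [NumberField L] [IsGalois ℚ L] {Z : 𝓞 L}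
    (hZ : Z * Z = -1 - Z) {p : ℕ} [hp : Fact p.Prime] {φ : 𝓞 L →+* AlgebraicClosure (ZMod p)}
    (h3 : p ≠ 3) (hp3 : p % 3 = 1) : ∃ π, Pq π ∧ nr π = p ∧ φ (hom Z hZ π) = 0 := by
  set I : Ideal Ei := RingHom.ker (φ.comp (hom Z hZ)) with hI
  have hmem : ∀ x, x ∈ I ↔ φ (hom Z hZ x) = 0 := fun x => Iff.rfl
  have hpI : ((p : ℕ) : Ei) ∈ I := by
    rw [hmem, map_natCast, map_natCast]
    exact CharP.cast_eq_zero _ p
  have hp0 : ((p : ℕ) : Ei) ≠ 0 := by
    intro h
    have := Pool.Agent.Y692.QS.nr_nat p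
    rw [h] at this
    have h5 : (p : ℤ) ^ 2 = 0 := by rw [← this]; rfl
    have h6 : (p : ℤ) = 0 := by simpa using h5
    exact hp.out.ne_zero (by exact_mod_cast h6)
  have hIb : I ≠ ⊥ := by
    intro h
    rw [h] at hpI
    exact hp0 (Ideal.mem_bot.1 hpI)
  haveI : I.IsPrime := RingHom.ker_isPrime _
  have hpr := Submodule.IsPrincipal.prime_generator_of_isPrime I hIb
  set ρ := Submodule.IsPrincipal.generator I with hρ
  have hρI : φ (hom Z hZ ρ) = 0 := (hmem ρ).1 (Submodule.IsPrincipal.generator_mem I)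
  have ht := im_z φ hZ
  have h30 := three_ne (p := p) h3
  have hρ3 : ¬ ρ ∣ 3 := by
    intro hd
    have h1 := (ker_iff hZ hpr hρI 3).2 hd
    rw [map_ofNat, map_ofNat] at h1
    exact h30 h1
  obtain ⟨c, hc⟩ := (ker_iff hZ hpr hρI _).1 ((hmem _).1 hpI)
  have h2 : (nr ρ).natAbs * (nr c).natAbs = p ^ 2 := by
    rw [← Int.natAbs_mul, ← nr_mul, ← hc, Pool.Agent.Y692.QS.nr_nat, Int.natAbs_pow,
      Int.natAbs_natCast]
  have hnn := nr_nonneg ρ
  have hnρ : nr ρ = p := by
    obtain ⟨i, hi, hi2⟩ := (Nat.dvd_prime_pow hp.out).1 (Dvd.intro _ h2)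
    interval_cases i
    · exfalso
      apply hpr.not_isUnit
      rw [Pool.Agent.Y692.QS.isUnit_iff]
      rw [pow_zero] at hi2
      omega
    · rw [pow_one] at hi2
      omega
    · exfalso
      have hcu : IsUnit c := by
        rw [Pool.Agent.Y692.QS.isUnit_iff]
        have h5 : (nr c).natAbs = 1 := by
          rw [hi2] at h2
          have hr0 : 0 < p ^ 2 := by positivity [hp.out.pos]
          exact Nat.eq_of_mul_eq_mul_left hr0 (by rw [h2, mul_one])
        have := nr_nonneg c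
        omega
      have hpd : ((p : ℕ) : Ei) ∣ ρ := by
        rw [hc]
        obtain ⟨u, rfl⟩ := hcu
        exact ⟨(u⁻¹ : Eiˣ), by rw [mul_assoc, Units.mul_inv, mul_one]⟩
      have hfix : (φ Z) ^ p = φ Z := by
        have hz3 := z_cube ht
        obtain ⟨m, hm⟩ : ∃ m, 3 * m + 1 = p := ⟨p / 3, by omega⟩
        have h5 : (φ Z) ^ (3 * m + 1) = φ Z := by
          rw [pow_add, pow_mul, hz3, one_pow, one_mul, pow_one]
        rwa [hm] at h5
      obtain ⟨z, hz⟩ := (Q283.TW.fixed_iff _).1 hfix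
      have h6 : ρ ∣ w - ((z.val : ℤ) : Ei) := by
        rw [← ker_iff hZ hpr hρI, map_sub, map_sub, hom_w, map_intCast, map_intCast, ← hz,
          sub_eq_zero]
        rw [Int.cast_natCast, ← map_natCast (algebraMap (ZMod p) (AlgebraicClosure (ZMod p))),
          ZMod.natCast_zmod_val]
      have h7 := hpd.trans h6
      have h8 : (((p : ℕ) : ℤ) : Ei) ∣ w - ((z.val : ℤ) : Ei) := by exact_mod_cast h7
      rw [Pool.Agent.Y692.QS.int_dvd] at h8
      have h9 := h8.2
      have h10 : (w - ((z.val : ℤ) : Ei)).im = 1 := by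
        rw [QuadraticAlgebra.im_sub, QuadraticAlgebra.im_intCast, sub_zero]; rfl
      rw [h10] at h9
      have h11 : p ∣ 1 := by exact_mod_cast h9
      exact hp.out.one_lt.ne' (Nat.dvd_one.1 h11)
  obtain ⟨u, hu, hu3⟩ := Pool.Agent.Y715.T.RecC.exists_prim hpr hρ3
  refine ⟨u * ρ, ⟨?_, hu3⟩, ?_, ?_⟩
  · obtain ⟨v, rfl⟩ := hu
    exact (associated_unit_mul_left ρ (v : Ei) v.isUnit).symm.prime hpr
  · rw [nr_mul, Pool.Agent.Y692.QS.isUnit_iff.1 hu, one_mul, hnρ]
  · rw [map_mul, map_mul, hρI, mul_zero]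

section
variable {L : Type} [Field L] [NumberField L] [IsGalois ℚ L] {P : Finset Ei} (E : Dat L P)
  (hP : ∀ q ∈ P, Pq q)

include hP

/-- the Frobenius set of a predicate on the symbols -/
def Dat.CC (Q : (P → ZMod 3) × ZMod 3 → Prop) : Set Gal(L/ℚ) :=
  {g | ∃ h : g ∈ HH E.Z, Q (Multiplicative.toAdd (E.Ψ hP ⟨g, h⟩))}

theorem Dat.dens (Q : (P → ZMod 3) × ZMod 3 → Prop) (T : Ei → Prop)
    (hT : ∀ π, Pq π → π ∉ P → (T π ↔ Q (fun q : P => cs π q, cs π w))) :
    Tendsto (fun X : ℕ => (NT T X : ℝ) / (Nat.primeCounting X : ℝ)) atTop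
      (𝓝 (2 * (Nat.card (HH E.Z) : ℝ) / (Nat.card Gal(L/ℚ) : ℝ) *
        ((Nat.card {x : (P → ZMod 3) × ZMod 3 // Q x} : ℝ) / 3 ^ (P.card + 1)))) := by
  apply NT_tendsto
  have hD0 : 0 < 3 * ∏ q ∈ P, (nr q).natAbs := by
    have : 0 < ∏ q ∈ P, (nr q).natAbs := by
      apply Finset.prod_pos
      intro q hq
      have h1 : nr q ≠ 0 := fun h => (hP q hq).prime.ne_zero (nr_zero_iff.1 h)
      omega
    omega
  have h1 := dens_one E.hZ (E.CC hP Q) T (3 * ∏ q ∈ P, (nr q).natAbs) hD0 (by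
    intro p hp hpD φ g hφ
    have h3 : p ≠ 3 := by
      rintro rfl
      exact hpD (dvd_mul_right _ _)
    have hpP : ∀ π : Ei, nr π = p → π ∉ P := by
      intro π hn hπ
      apply hpD
      refine Dvd.dvd.mul_left ?_ _
      have h5 : (nr π).natAbs = p := by rw [hn]; exact Int.natAbs_natCast p
      rw [← h5]
      exact Finset.dvd_prod_of_mem (fun q : Ei => (nr q).natAbs) hπ
    have key : ∀ (π : Ei), Pq π → nr π = p → φ (hom E.Z E.hZ π) = 0 → ∀ hg : g ∈ HH E.Z,
        (T π ↔ Q (Multiplicative.toAdd (E.Ψ hP ⟨g, hg⟩))) := by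
      intro π h4 h5 h6 hg
      rw [hT π h4 (hpP π h5)]
      have e1 : (fun q : P => cs π q) = fun q : P => ar E.Z g (E.s (q : Ei)) := by
        funext q
        symm
        apply ar_of E.hZ (E.s0 hP q.2)
        refine frob_cube E.hZ hφ h3 hg h4.prime h5 h6 (E.hs q q.2) ?_
        intro hd
        have := pq_eq_of_dvd (hP q q.2) h4 hd
        exact hpP π h5 (this ▸ q.2)
      have e2 : cs π w = ar E.Z g (E.s w) := by
        symm
        apply ar_of E.hZ E.w0
        refine frob_cube E.hZ hφ h3 hg h4.prime h5 h6 E.hw ?_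
        intro hd
        apply h4.prime.not_isUnit
        refine isUnit_of_dvd_unit hd ?_
        rw [Pool.Agent.Y692.QS.isUnit_iff]; decide
      rw [e1, e2]
      exact Iff.rfl
    constructor
    · rintro ⟨hg, hQ⟩
      have hp3 : p % 3 = 1 := (frob_z E.hZ hφ h3).1 hg
      obtain ⟨π, h4, h5, h6⟩ : ∃ π, Pq π ∧ nr π = p ∧ φ (hom E.Z E.hZ π) = 0 :=
        exists_above E.hZ h3 hp3
      exact ⟨π, h4, h5, h6, (key π h4 h5 h6 hg).2 hQ⟩
    · rintro ⟨π, h4, h5, h6, h7⟩
      have hg : g ∈ HH E.Z := by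
        rw [mem_HH, frob_z E.hZ hφ h3]
        exact mod_three h5 hp.out h3
      exact ⟨hg, (key π h4 h5 h6 hg).1 h7⟩)
  have h2 : (Nat.card (E.CC hP Q) : ℝ) =
      (Nat.card {g : HH E.Z // Q (Multiplicative.toAdd (E.Ψ hP g))} : ℝ) := by
    congr 1
    refine Nat.card_congr
      { toFun := fun x => ⟨⟨x.1, x.2.1⟩, x.2.2⟩
        invFun := fun x => ⟨x.1.1, x.1.2, x.2⟩
        left_inv := fun x => rfl
        right_inv := fun x => rfl }
  have h3 := E.ratio hP Q
  have hHpos : (0 : ℝ) < Nat.card (HH E.Z) := by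
    have := Nat.card_pos (α := HH E.Z)
    exact_mod_cast this
  have h4 : (Nat.card {g : HH E.Z // Q (Multiplicative.toAdd (E.Ψ hP g))} : ℝ) =
      (Nat.card {x : (P → ZMod 3) × ZMod 3 // Q x} : ℝ) / 3 ^ (P.card + 1) *
        (Nat.card (HH E.Z) : ℝ) := by
    rw [← h3]
    field_simp
  rw [h2, h4] at h1
  convert h1 using 2
  ring

end

end Q283.TC
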