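import Pool.Agent.Q283.TC.Frob
import Pool.Agent.Q283.TW.Dens
import Pool.Agent.Y715.T.RecC

/-!
# Counting primary primes of the Eisenstein integers by Frobenius elements
-/

set_option autoImplicit false
set_option linter.unusedSectionVars false
set_option linter.style.haveILetI false

namespace Q283.TC

open NumberField Filter Topology Finset Pool.Agent.W401.Cheb
open Pool.Agent.Y692.QS (Ei w nr hom hom_apply hom_w w_cube mul_star nr_nonneg)
open Pool.Agent.Y715.T.RecG (Pq)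

/-- bounded norm -/
theorem fin_nr (X : ℕ) : {x : Ei | nr x ≤ X}.Finite := by
  refine Set.Finite.subset (((Set.finite_Icc (-(2 * X : ℤ)) (2 * X)).prod
    (Set.finite_Icc (-(2 * X : ℤ)) (2 * X))).image
      fun x : ℤ × ℤ => (⟨x.1, x.2⟩ : Ei)) ?_
  intro x hx
  have h : x.re ^ 2 - x.re * x.im + x.im ^ 2 ≤ X := hx
  refine ⟨(x.re, x.im), ⟨Set.mem_Icc.2 ⟨?_, ?_⟩, Set.mem_Icc.2 ⟨?_, ?_⟩⟩, rfl⟩ <;>
    nlinarith [sq_nonneg (2 * x.re - x.im), sq_nonneg (2 * x.im - x.re), sq_nonneg (x.re - 1),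
      sq_nonneg (x.re + 1), sq_nonneg (x.im - 1), sq_nonneg (x.im + 1)]

section
variable {L : Type} [Field L] [NumberField L] [IsGalois ℚ L] {Z : 𝓞 L} (hZ : Z * Z = -1 - Z)

include hZ in
/-- an automorphism moving the root of unity -/
theorem exists_conj : ∃ c : Gal(L/ℚ), c • Z = -1 - Z := by
  by_contra hno
  push Not at hno
  have hall : ∀ c : Gal(L/ℚ), c • Z = Z := by
    intro c
    have h1 : (c • Z - Z) * (c • Z + 1 + Z) = 0 := by
      linear_combination smul_z hZ c - hZ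
    rcases mul_eq_zero.1 h1 with h2 | h2
    · exact sub_eq_zero.1 h2
    · exact absurd (by linear_combination h2) (hno c)
  have hbot : (Z : L) ∈ (⊥ : IntermediateField ℚ L) := by
    rw [IsGalois.mem_bot_iff_fixed]
    intro f
    exact congrArg (algebraMap (𝓞 L) L) (hall f)
  rw [IntermediateField.mem_bot] at hbot
  obtain ⟨r, hr⟩ := hbot
  have h1 : (Z : L) * Z = -1 - Z := by
    have := congrArg (algebraMap (𝓞 L) L) hZ
    rw [map_mul, map_sub, map_neg, map_one] at this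
    exact this
  rw [← hr] at h1
  have h2 : r * r = -1 - r := by
    apply (algebraMap ℚ L).injective
    rw [map_mul, map_sub, map_neg, map_one, h1]
  nlinarith [sq_nonneg (2 * r + 1)]

theorem conj_hom {c : Gal(L/ℚ)} (hc : c • Z = -1 - Z) (x : Ei) :
    c • hom Z hZ x = hom Z hZ (star x) := by
  rw [hom_apply, hom_apply, smul_add, smul_mul', hc, Pool.Agent.Y692.QS.star_re,
    Pool.Agent.Y692.QS.star_im]
  have e : ∀ n : ℤ, c • (n : 𝓞 L) = (n : 𝓞 L) := fun n =>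
    map_intCast (MulSemiringAction.toRingHom Gal(L/ℚ) (𝓞 L) c) n
  rw [e, e]
  push_cast
  ring

variable {p : ℕ} [hp : Fact p.Prime]

theorem not_both {φ : 𝓞 L →+* AlgebraicClosure (ZMod p)} (h2 : p ≠ 2) (h3 : p ≠ 3) {π : Ei}
    (hn : nr π = p) (h0 : φ (hom Z hZ π) = 0) : φ (hom Z hZ (star π)) ≠ 0 := by
  intro h1
  have ht := im_z φ hZ
  have h30 := three_ne (p := p) h3
  have h20 := Q283.TW.two_ne (p := p) h2
  rw [hom_apply, map_add, map_mul, map_intCast, map_intCast] at h0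
  rw [hom_apply, map_add, map_mul, map_intCast, map_intCast, Pool.Agent.Y692.QS.star_re,
    Pool.Agent.Y692.QS.star_im] at h1
  push_cast at h1
  have hcast : ∀ n : ℤ, ((n : ℤ) : AlgebraicClosure (ZMod p)) = 0 → (p : ℤ) ∣ n := by
    intro n hn
    rw [← ZMod.intCast_zmod_eq_zero_iff_dvd]
    apply Q283.TW.cast_inj
    rw [map_intCast, map_zero]
    exact hn
  have e1 : (π.im : AlgebraicClosure (ZMod p)) * (2 * φ Z + 1) = 0 := by
    linear_combination h0 - h1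
  have e2 : (2 * φ Z + 1) * (2 * φ Z + 1) = -3 := by linear_combination 4 * ht
  have e3 : (2 * φ Z + 1) ≠ 0 := by
    intro h
    rw [h, zero_mul] at e2
    apply h30
    linear_combination e2
  have e4 : (π.im : AlgebraicClosure (ZMod p)) = 0 := by
    rcases mul_eq_zero.1 e1 with h | h
    · exact h
    · exact absurd h e3
  have e5 : (π.re : AlgebraicClosure (ZMod p)) = 0 := by
    rw [e4, zero_mul, add_zero] at h0
    exact h0
  obtain ⟨a, ha⟩ := hcast _ e4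
  obtain ⟨b, hb⟩ := hcast _ e5
  unfold nr at hn
  rw [ha, hb] at hn
  have hp0 : (p : ℤ) ≠ 0 := by exact_mod_cast hp.out.ne_zero
  have h6 : (p : ℤ) * (b ^ 2 - b * a + a ^ 2) = 1 := by
    apply mul_left_cancel₀ hp0
    linear_combination hn
  have h7 : (p : ℤ) ∣ 1 := Dvd.intro _ h6
  have h8 : p ∣ 1 := by exact_mod_cast h7
  exact hp.out.one_lt.ne' (Nat.dvd_one.1 h8)

/-- half of the homomorphisms lie above `π` -/
theorem card_above (h : TorAt L p) (h2 : p ≠ 2) (h3 : p ≠ 3) {π : Ei} (hn : nr π = p) :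
    2 * Nat.card {φ : 𝓞 L →+* AlgebraicClosure (ZMod p) // φ (hom Z hZ π) = 0} =
      Nat.card Gal(L/ℚ) := by
  classical
  have hfin := finite_hom h
  obtain ⟨c, hc⟩ := exists_conj hZ
  have hcc : c • c • Z = Z := by
    rw [hc, smul_sub, smul_neg, smul_one, hc]; ring
  have e1 : Nat.card {φ : 𝓞 L →+* AlgebraicClosure (ZMod p) // φ (hom Z hZ π) = 0} =
      Nat.card {φ : 𝓞 L →+* AlgebraicClosure (ZMod p) // φ (hom Z hZ (star π)) = 0} := by
    refine Nat.card_congr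
      { toFun := fun φ => ⟨tw φ.1 c, by rw [tw_apply, conj_hom hZ hc, star_star]; exact φ.2⟩
        invFun := fun φ => ⟨tw φ.1 c⁻¹, ?_⟩
        left_inv := fun φ => ?_
        right_inv := fun φ => ?_ }
    · rw [tw_apply]
      have h5 := conj_hom hZ hc (star π)
      rw [star_star] at h5
      rw [← h5, inv_smul_smul]
      exact φ.2
    · apply Subtype.ext
      apply RingHom.ext
      intro x
      simp only [tw_apply]
      rw [smul_inv_smul]
    · apply Subtype.ext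
      apply RingHom.ext
      intro x
      simp only [tw_apply]
      rw [inv_smul_smul]
  have e2 : Nat.card {φ : 𝓞 L →+* AlgebraicClosure (ZMod p) // φ (hom Z hZ (star π)) = 0} =
      Nat.card {φ : 𝓞 L →+* AlgebraicClosure (ZMod p) // ¬ φ (hom Z hZ π) = 0} := by
    refine Nat.card_congr (Equiv.subtypeEquivRight fun φ => ?_)
    constructor
    · intro h1 h0
      exact not_both hZ h2 h3 hn h0 h1
    · intro h1
      have h5 : φ (hom Z hZ π) * φ (hom Z hZ (star π)) = 0 := by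
        rw [← map_mul, ← map_mul, mul_star, hn, map_intCast, map_intCast]
        have : ((p : ℕ) : AlgebraicClosure (ZMod p)) = 0 := CharP.cast_eq_zero _ p
        exact_mod_cast this
      rcases mul_eq_zero.1 h5 with h6 | h6
      · exact absurd h6 h1
      · exact h6
  have e3 : Nat.card {φ : 𝓞 L →+* AlgebraicClosure (ZMod p) // φ (hom Z hZ π) = 0} +
      Nat.card {φ : 𝓞 L →+* AlgebraicClosure (ZMod p) // ¬ φ (hom Z hZ π) = 0} =
      Nat.card (𝓞 L →+* AlgebraicClosure (ZMod p)) := by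
    rw [← Nat.card_sum]
    exact Nat.card_congr (Equiv.sumCompl _)
  rw [← h.1, ← e3, two_mul]
  congr 1
  rw [e1, e2]

end

/-- the number of the primary primes of norm `n` with the property `T` -/
noncomputable def FT (T : Ei → Prop) (n : ℕ) : ℕ := Nat.card {π : Ei // Pq π ∧ nr π = n ∧ T π}

/-- a primary unit is one -/
theorem unit_one {u : Ei} (hu : IsUnit u) (h3 : (3 : Ei) ∣ u - 1) : u = 1 := by
  obtain ⟨c, hc | hc⟩ := Pool.Agent.Y715.T.RecC.unit_form hu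
  · rw [hc] at h3 ⊢
    have h5 : (((3 : ℤ) : Ei)) ∣ w ^ c.val - 1 := by exact_mod_cast h3
    rw [Pool.Agent.Y692.QS.int_dvd] at h5
    exact (by decide : ∀ c : ZMod 3, ((3 : ℤ) ∣ (w ^ c.val - 1 : Ei).re ∧
      (3 : ℤ) ∣ (w ^ c.val - 1 : Ei).im) → (w : Ei) ^ c.val = 1) c h5
  · exfalso
    rw [hc] at h3
    have h5 : (((3 : ℤ) : Ei)) ∣ -w ^ c.val - 1 := by exact_mod_cast h3
    rw [Pool.Agent.Y692.QS.int_dvd] at h5
    exact (by decide : ∀ c : ZMod 3, ¬ ((3 : ℤ) ∣ (-w ^ c.val - 1 : Ei).re ∧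
      (3 : ℤ) ∣ (-w ^ c.val - 1 : Ei).im)) c h5

theorem pq_eq_of_dvd {π ρ : Ei} (h : Pq π) (h' : Pq ρ) (hd : ρ ∣ π) : ρ = π := by
  obtain ⟨u, hu⟩ := (h'.prime.dvd_prime_iff_associated h.prime).1 hd
  have h3 : (3 : Ei) ∣ (u : Ei) - 1 := by
    have e : (u : Ei) - 1 = (π - 1) - (ρ - 1) * u := by rw [← hu]; ring
    rw [e]
    exact dvd_sub h.three (Dvd.dvd.mul_right h'.three _)
  rw [← hu, unit_one u.isUnit h3, mul_one]

section
variable {L : Type} [Field L] [NumberField L] [IsGalois ℚ L] {Z : 𝓞 L} (hZ : Z * Z = -1 - Z)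

open scoped Classical in
theorem sum_eq (C : Set Gal(L/ℚ)) (T : Ei → Prop) {p : ℕ} [hp : Fact p.Prime] (h : TorAt L p)
    (h2 : p ≠ 2) (h3 : p ≠ 3)
    (hT : ∀ (φ : 𝓞 L →+* AlgebraicClosure (ZMod p)) (g : Gal(L/ℚ)), HasFrob p φ g →
      (g ∈ C ↔ ∃ π, Pq π ∧ nr π = p ∧ φ (hom Z hZ π) = 0 ∧ T π)) :
    2 * ∑ g ∈ C.toFinset, xp L g p = FT T p * Nat.card Gal(L/ℚ) := by
  have hfin := finite_hom h
  have hfin2 : Finite {π : Ei // Pq π ∧ nr π = p ∧ T π} := by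
    refine Set.Finite.subset (fin_nr p) ?_
    rintro π ⟨-, h1, -⟩
    exact h1.le
  haveI := Fintype.ofFinite {π : Ei // Pq π ∧ nr π = p ∧ T π}
  have e1 : ∑ g ∈ C.toFinset, xp L g p =
      Nat.card {φ : 𝓞 L →+* AlgebraicClosure (ZMod p) //
        ∃ π, Pq π ∧ nr π = p ∧ φ (hom Z hZ π) = 0 ∧ T π} := by
    have e2 : (Σ g : C.toFinset, {φ : 𝓞 L →+* AlgebraicClosure (ZMod p) // HasFrob p φ g.1}) ≃
        {φ : 𝓞 L →+* AlgebraicClosure (ZMod p) //
          ∃ π, Pq π ∧ nr π = p ∧ φ (hom Z hZ π) = 0 ∧ T π} := by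
      refine Equiv.ofBijective (fun x => ⟨x.2.1, (hT _ _ x.2.2).1 (Set.mem_toFinset.1 x.1.2)⟩)
        ⟨?_, ?_⟩
      · rintro ⟨⟨g, hg⟩, φ, hφ⟩ ⟨⟨g', hg'⟩, φ', hφ'⟩ he
        simp only [Subtype.mk.injEq] at he
        subst he
        have : g = g' := frob_unique h hφ hφ'
        subst this
        rfl
      · rintro ⟨φ, hφ⟩
        obtain ⟨g, hg⟩ := exists_frob h φ
        exact ⟨⟨⟨g, Set.mem_toFinset.2 ((hT _ _ hg).2 hφ)⟩, φ, hg⟩, rfl⟩
    rw [← Nat.card_congr e2, Nat.card_sigma, ← Finset.sum_coe_sort]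
    refine Finset.sum_congr rfl fun g _ => ?_
    unfold xp
    rw [dif_pos hp.out]
  have e3 : Nat.card {φ : 𝓞 L →+* AlgebraicClosure (ZMod p) //
      ∃ π, Pq π ∧ nr π = p ∧ φ (hom Z hZ π) = 0 ∧ T π} =
      ∑ π : {π : Ei // Pq π ∧ nr π = p ∧ T π},
        Nat.card {φ : 𝓞 L →+* AlgebraicClosure (ZMod p) // φ (hom Z hZ π.1) = 0} := by
    rw [← Nat.card_sigma]
    symm
    refine Nat.card_congr (Equiv.ofBijective
      (fun x => ⟨x.2.1, x.1.1, x.1.2.1, x.1.2.2.1, x.2.2, x.1.2.2.2⟩) ⟨?_, ?_⟩)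
    · rintro ⟨⟨π, hπ⟩, φ, hφ⟩ ⟨⟨π', hπ'⟩, φ', hφ'⟩ he
      simp only [Subtype.mk.injEq] at he
      subst he
      have h5 : π = π' := pq_eq_of_dvd hπ'.1 hπ.1 ((ker_iff hZ hπ.1.prime hφ π').1 hφ')
      subst h5
      rfl
    · rintro ⟨φ, π, h1, h2, h3, h4⟩
      exact ⟨⟨⟨π, h1, h2, h4⟩, φ, h3⟩, rfl⟩
  rw [e1, e3, Finset.mul_sum]
  rw [Finset.sum_congr rfl fun π _ => card_above hZ h h2 h3 π.2.2.1, Finset.sum_const,
    Finset.card_univ, ← Nat.card_eq_fintype_card, smul_eq_mul]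
  rfl

open scoped Classical in
/-- **Density of a Frobenius set, for primes of degree one of the Eisenstein integers.** -/
theorem dens_one (C : Set Gal(L/ℚ)) (T : Ei → Prop) (D₀ : ℕ) (hD₀ : 0 < D₀)
    (hT : ∀ (p : ℕ) [Fact p.Prime], ¬ p ∣ D₀ →
      ∀ (φ : 𝓞 L →+* AlgebraicClosure (ZMod p)) (g : Gal(L/ℚ)), HasFrob p φ g →
      (g ∈ C ↔ ∃ π, Pq π ∧ nr π = p ∧ φ (hom Z hZ π) = 0 ∧ T π)) :
    Tendsto (M fun p => (FT T p : ℝ)) atTop
      (𝓝 (2 * (Nat.card C : ℝ) / (Nat.card Gal(L/ℚ) : ℝ))) := by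
  obtain ⟨D₁, hD₁, htor⟩ := torsor L
  have hG : (Nat.card Gal(L/ℚ) : ℝ) ≠ 0 := by
    have := Nat.card_pos (α := Gal(L/ℚ))
    positivity
  have key : ∀ p : ℕ, p.Prime → ¬ p ∣ 6 * D₀ * D₁ → (FT T p : ℝ) =
      (2 * (Nat.card Gal(L/ℚ) : ℝ)⁻¹) * ∑ g ∈ C.toFinset, (xp L g p : ℝ) := by
    intro p hp hpD
    haveI : Fact p.Prime := ⟨hp⟩
    have h0 : ¬ p ∣ D₀ := fun h => hpD ((h.mul_left _).mul_right _)
    have h1 : ¬ p ∣ D₁ := fun h => hpD (h.mul_left _)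
    have h2 : p ≠ 2 := by
      rintro rfl
      exact hpD (((by norm_num : 2 ∣ 6).mul_right _).mul_right _)
    have h3 : p ≠ 3 := by
      rintro rfl
      exact hpD (((by norm_num : 3 ∣ 6).mul_right _).mul_right _)
    have h4 := sum_eq hZ C T (htor p h1) h2 h3 (hT p h0)
    have h5 : 2 * ∑ g ∈ C.toFinset, (xp L g p : ℝ) = (FT T p : ℝ) * (Nat.card Gal(L/ℚ) : ℝ) := by
      exact_mod_cast h4
    field_simp
    linear_combination -h5
  refine M_congr (Nat.mul_pos (Nat.mul_pos (by norm_num) hD₀) hD₁) key ?_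
  have h4 : ∀ N, M (fun p => (2 * (Nat.card Gal(L/ℚ) : ℝ)⁻¹) * ∑ g ∈ C.toFinset, (xp L g p : ℝ)) N
      = (2 * (Nat.card Gal(L/ℚ) : ℝ)⁻¹) * ∑ g ∈ C.toFinset, M (fun p => (xp L g p : ℝ)) N := by
    intro N
    rw [M_smul, M_sum]
  have h5 : Tendsto (fun N => (2 * (Nat.card Gal(L/ℚ) : ℝ)⁻¹) *
      ∑ g ∈ C.toFinset, M (fun p => (xp L g p : ℝ)) N) atTop
      (𝓝 ((2 * (Nat.card Gal(L/ℚ) : ℝ)⁻¹) * ∑ _g ∈ C.toFinset, 1)) :=
    (tendsto_finsetSum _ fun g _ => chebotarev L g).const_mul _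
  have h6 : (2 * (Nat.card Gal(L/ℚ) : ℝ)⁻¹) * ∑ _g ∈ C.toFinset, (1 : ℝ)
      = 2 * (Nat.card C : ℝ) / (Nat.card Gal(L/ℚ) : ℝ) := by
    rw [Finset.sum_const, nsmul_eq_mul, mul_one, Set.toFinset_card, ← Nat.card_eq_fintype_card]
    field_simp
  rw [h6] at h5
  exact h5.congr fun N => (h4 N).symm

end

end Q283.TC
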