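import Pool.Agent.W401.Cheb.Grp
import Pool.Agent.Y715.T.RecG
import Pool.Agent.Q283.TW.Frob

/-!
# Frobenius elements and cube roots
-/

set_option autoImplicit false
set_option linter.unusedSectionVars false

namespace Q283.TC

open NumberField Pool.Agent.W401.Cheb
open Pool.Agent.Y692.QS (Ei w nr hom hom_apply hom_w w_cube)
open Pool.Agent.Y715.T.Rec (cs nn w_add)
open Pool.Agent.Y715.T.RecG (Pq)

section
variable {k : Type*} [Field k]

/-- powers of a primitive cube root of unity -/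
theorem zp_add {t : k} (ht : t * t = -1 - t) (c d : ZMod 3) :
    t ^ (c + d).val = t ^ c.val * t ^ d.val := by
  have h := congrArg (hom t ht) (w_add c d)
  rw [map_mul, map_pow, map_pow, map_pow, hom_w] at h
  exact h

theorem z_cube {t : k} (ht : t * t = -1 - t) : t ^ 3 = 1 := by
  have h := congrArg (hom t ht) w_cube
  rw [map_pow, hom_w, map_one] at h
  exact h

theorem z_ne_zero {t : k} (ht : t * t = -1 - t) : t ≠ 0 := by
  rintro rfl
  have h := z_cube ht
  rw [zero_pow (by norm_num)] at h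
  exact zero_ne_one h

theorem z_ne_one {t : k} (ht : t * t = -1 - t) (h3 : (3 : k) ≠ 0) : t ≠ 1 := by
  rintro rfl
  apply h3
  linear_combination ht

theorem zp_inj {t : k} (ht : t * t = -1 - t) (h3 : (3 : k) ≠ 0) {c d : ZMod 3}
    (h : t ^ c.val = t ^ d.val) : c = d := by
  have h0 : ∀ e : ZMod 3, t ^ e.val = 1 → e = 0 := by
    intro e he
    have h01 : ∀ x : ZMod 3, x = 0 ∨ x.val = 1 ∨ x.val = 2 := by decide
    rcases h01 e with h1 | h1 | h1
    · exact h1
    · rw [h1, pow_one] at he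
      exact absurd he (z_ne_one ht h3)
    · rw [h1] at he
      exfalso
      have h4 := z_cube ht
      apply z_ne_one ht h3
      calc t = t ^ 2 * t := by rw [he, one_mul]
        _ = t ^ 3 := by ring
        _ = 1 := h4
  have h1 := zp_add ht (c - d) d
  rw [sub_add_cancel, h] at h1
  have h2 : t ^ d.val ≠ 0 := pow_ne_zero _ (z_ne_zero ht)
  have h3 : t ^ (c - d).val = 1 := by
    have : (t ^ (c - d).val - 1) * t ^ d.val = 0 := by linear_combination -h1
    rcases mul_eq_zero.1 this with h4 | h4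
    · exact sub_eq_zero.1 h4
    · exact absurd h4 h2
  exact sub_eq_zero.1 (h0 _ h3)

/-- cube roots of the same element -/
theorem cube_roots {t : k} (ht : t * t = -1 - t) {x y : k} (h : x ^ 3 = y ^ 3) :
    ∃ c : ZMod 3, x = t ^ c.val * y := by
  have h1 : (x - y) * ((x - t * y) * (x - t ^ 2 * y)) = 0 := by
    have e2 : t ^ 2 = -1 - t := by rw [sq]; exact ht
    have e3 := z_cube ht
    linear_combination h + (x * y ^ 2 - x ^ 2 * y) * e2 * 1 - (y ^ 3 - x * y ^ 2) * e3
  rcases mul_eq_zero.1 h1 with h2 | h2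
  · exact ⟨0, by rw [ZMod.val_zero, pow_zero, one_mul]; exact sub_eq_zero.1 h2⟩
  rcases mul_eq_zero.1 h2 with h3 | h3
  · exact ⟨1, by rw [show (1 : ZMod 3).val = 1 from rfl, pow_one]; exact sub_eq_zero.1 h3⟩
  · exact ⟨2, by rw [show (2 : ZMod 3).val = 2 from rfl]; exact sub_eq_zero.1 h3⟩

end

section
variable {p : ℕ} [hp : Fact p.Prime] {L : Type} [Field L] [NumberField L] [IsGalois ℚ L]
  {φ : 𝓞 L →+* AlgebraicClosure (ZMod p)} {Z : 𝓞 L} (hZ : Z * Z = -1 - Z)

/-- the image of the root of unity -/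
theorem im_z (φ : 𝓞 L →+* AlgebraicClosure (ZMod p)) (hZ : Z * Z = -1 - Z) :
    φ Z * φ Z = -1 - φ Z := by
  rw [← map_mul, hZ, map_sub, map_neg, map_one]

theorem three_ne (h3 : p ≠ 3) : (3 : AlgebraicClosure (ZMod p)) ≠ 0 := by
  intro h
  have h1 : algebraMap (ZMod p) (AlgebraicClosure (ZMod p)) 3 =
      algebraMap (ZMod p) (AlgebraicClosure (ZMod p)) 0 := by
    rw [map_ofNat, map_zero]; exact h
  have h3' : ((3 : ℕ) : ZMod p) = 0 := by exact_mod_cast Q283.TW.cast_inj h1
  rw [ZMod.natCast_eq_zero_iff] at h3'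
  exact h3 ((Nat.prime_dvd_prime_iff_eq hp.out Nat.prime_three).1 h3')

theorem smul_hom {g : Gal(L/ℚ)} (hg : g • Z = Z) (x : Ei) : g • hom Z hZ x = hom Z hZ x := by
  rw [hom_apply]
  rw [smul_add, smul_mul', hg]
  congr 1
  · exact map_intCast (MulSemiringAction.toRingHom Gal(L/ℚ) (𝓞 L) g) _
  · congr 1
    exact map_intCast (MulSemiringAction.toRingHom Gal(L/ℚ) (𝓞 L) g) _

include hZ in
theorem smul_z (g : Gal(L/ℚ)) : (g • Z) * (g • Z) = -1 - g • Z := by
  have h : g • (Z * Z) = g • (-1 - Z) := by rw [hZ]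
  rw [smul_mul', smul_sub, smul_neg, smul_one] at h
  exact h

include hZ in
/-- Frobenius fixes the root of unity if and only if `p = 1` modulo `3` -/
theorem frob_z {g : Gal(L/ℚ)} (hφ : HasFrob p φ g) (h3 : p ≠ 3) : g • Z = Z ↔ p % 3 = 1 := by
  have ht := im_z φ hZ
  have h30 := three_ne (p := p) h3
  have hpow : ∀ n : ℕ, (φ Z) ^ n = (φ Z) ^ (n % 3) := by
    intro n
    conv_lhs => rw [← Nat.div_add_mod n 3, pow_add, pow_mul, z_cube ht, one_pow, one_mul]
  have hp3 : p % 3 = 1 ∨ p % 3 = 2 := by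
    have : ¬ 3 ∣ p := fun h => h3 ((Nat.prime_dvd_prime_iff_eq Nat.prime_three hp.out).1 h).symm
    omega
  have hfr := hφ Z
  rw [hpow p] at hfr
  constructor
  · intro h
    rw [h] at hfr
    rcases hp3 with h1 | h1
    · exact h1
    · exfalso
      rw [h1] at hfr
      apply z_ne_one ht h30
      have h2 := z_ne_zero ht
      have : φ Z * (φ Z - 1) = 0 := by linear_combination -hfr
      rcases mul_eq_zero.1 this with h4 | h4
      · exact absurd h4 h2
      · exact sub_eq_zero.1 h4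
  · intro h
    rw [h, pow_one] at hfr
    have h1 : (g • Z - Z) * (g • Z + 1 + Z) = 0 := by
      linear_combination smul_z hZ g - hZ
    rcases mul_eq_zero.1 h1 with h2 | h2
    · exact sub_eq_zero.1 h2
    · exfalso
      have h4 := congrArg φ h2
      rw [map_add, map_add, map_one, map_zero, hfr] at h4
      have h5 : φ Z = 1 := by
        have : (2 : AlgebraicClosure (ZMod p)) * (φ Z - 1) = -3 := by linear_combination h4
        have e : φ Z * φ Z + φ Z + 1 = 0 := by linear_combination ht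
        have e2 : 2 * φ Z = -1 := by linear_combination h4
        have e3 : (3 : AlgebraicClosure (ZMod p)) = 0 := by
          linear_combination 4 * e - (2 * φ Z + 1) * e2
        exact absurd e3 h30
      exact z_ne_one ht h30 h5

/-- the kernel of a homomorphism above `π` -/
theorem ker_iff {π : Ei} (hπ : Prime π) (h0 : φ (hom Z hZ π) = 0) (x : Ei) :
    φ (hom Z hZ x) = 0 ↔ π ∣ x := by
  constructor
  · intro hx
    by_contra hd
    have h1 : IsCoprime π x := (hπ.irreducible.coprime_iff_not_dvd).2 hd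
    obtain ⟨a, b, hab⟩ := h1
    have h2 : φ (hom Z hZ (a * π + b * x)) = φ (hom Z hZ 1) := by rw [hab]
    rw [map_add, map_add, map_mul, map_mul, map_mul, map_mul, h0, hx, mul_zero, mul_zero, add_zero,
      map_one, map_one] at h2
    exact zero_ne_one h2
  · rintro ⟨y, rfl⟩
    rw [map_mul, map_mul, h0, zero_mul]

/-- **Frobenius and cube roots.** -/
theorem frob_cube {g : Gal(L/ℚ)} (hφ : HasFrob p φ g) (h3 : p ≠ 3) (hg : g • Z = Z) {π : Ei}
    (hπ : Prime π) (hn : nr π = p) (h0 : φ (hom Z hZ π) = 0) {S : 𝓞 L} {q : Ei}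
    (hS : S ^ 3 = hom Z hZ q) (hq : ¬ π ∣ q) : g • S = Z ^ (cs π q).val * S := by
  have ht := im_z φ hZ
  have h30 := three_ne (p := p) h3
  have hinj : Function.Injective (algebraMap (𝓞 L) L) := RingOfIntegers.coe_injective
  have hp3 : p % 3 = 1 := (frob_z hZ hφ h3).1 hg
  have hπ3 : ¬ π ∣ 3 := by
    intro hd
    have h1 := (ker_iff hZ hπ h0 3).2 hd
    rw [map_ofNat, map_ofNat] at h1
    exact h30 h1
  have hnn : 3 * nn π + 1 = p := by
    unfold nn
    rw [hn, Int.natAbs_natCast]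
    omega
  have hS0 : φ S ≠ 0 := by
    intro h
    apply hq
    rw [← ker_iff hZ hπ h0, ← hS, map_pow, h, zero_pow (by norm_num)]
  have hcube : (g • S) ^ 3 = S ^ 3 := by
    rw [← smul_pow', hS, smul_hom hZ hg]
  obtain ⟨c, hc⟩ : ∃ c : ZMod 3, g • S = Z ^ c.val * S := by
    have hzL : (algebraMap (𝓞 L) L Z) * (algebraMap (𝓞 L) L Z) = -1 - algebraMap (𝓞 L) L Z := by
      rw [← map_mul, hZ, map_sub, map_neg, map_one]
    obtain ⟨c, hc⟩ := cube_roots hzL (x := algebraMap (𝓞 L) L (g • S)) (y := algebraMap (𝓞 L) L S)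
      (by rw [← map_pow, ← map_pow, hcube])
    refine ⟨c, hinj ?_⟩
    rw [hc, map_mul, map_pow]
  have h1 := hφ S
  have h2 : φ S ^ p = φ Z ^ (cs π q).val * φ S := by
    have e1 : φ S ^ p = (φ S ^ 3) ^ nn π * φ S := by
      rw [← pow_mul, ← pow_succ, hnn]
    rw [e1, ← map_pow, hS, ← map_pow, ← map_pow]
    have hsp := Pool.Agent.Y715.T.RecG.cs_spec hπ hπ3 hq
    have h5 := (ker_iff hZ hπ h0 _).2 hsp
    rw [map_sub, map_sub, sub_eq_zero] at h5
    rw [h5, map_pow, map_pow, hom_w]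
  rw [h2, hc, map_mul, map_pow] at h1
  have h6 : φ Z ^ c.val = φ Z ^ (cs π q).val := mul_right_cancel₀ hS0 h1
  rw [hc, zp_inj ht h30 h6]

end

end Q283.TC
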