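import Pool.Agent.Q283.TC.Count

/-!
# Independence of cube roots over the field of third roots of unity
-/

set_option autoImplicit false
set_option linter.unusedSectionVars false
set_option linter.style.haveILetI false

namespace Q283.TC

open NumberField Finset
open Pool.Agent.Y692.QS (Ei w nr hom hom_apply hom_w w_cube mul_star nr_nonneg nr_zero_iff)
open Pool.Agent.Y715.T.RecG (Pq)
open scoped IntermediateField

/-- a product of primary primes and of a root of unity, with exponents `0`, `1`, `2`, is a cube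
only if the exponents are `0` -/
theorem indep (P : Finset Ei) (hP : ∀ q ∈ P, Pq q) (lam : Ei → ZMod 3) {t : Ei}
    (h : t ^ 3 = w ^ (lam w).val * ∏ q ∈ P, q ^ (lam q).val) :
    lam w = 0 ∧ ∀ q ∈ P, lam q = 0 := by
  have hw : IsUnit (w : Ei) := by
    rw [Pool.Agent.Y692.QS.isUnit_iff]; decide
  have h1 : ∀ q ∈ P, lam q = 0 := by
    intro q hq
    by_contra hne
    have hpr := (hP q hq).prime
    have hlt : (lam q).val < 3 := ZMod.val_lt _
    have hpos : (lam q).val ≠ 0 := by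
      intro h0
      exact hne ((ZMod.val_eq_zero _).1 h0)
    rw [← Finset.mul_prod_erase P _ hq] at h
    have h2 : q ∣ t ^ 3 := by
      rw [h]
      exact Dvd.dvd.mul_left (Dvd.dvd.mul_right (dvd_pow_self q hpos) _) _
    have h3 : q ^ 3 ∣ t ^ 3 := pow_dvd_pow_of_dvd (hpr.dvd_of_dvd_pow h2) 3
    rw [h] at h3
    have h4 : q ^ (lam q).val * q ∣ q ^ (lam q).val * (w ^ (lam w).val *
        ∏ r ∈ P.erase q, r ^ (lam r).val) := by
      rw [← pow_succ]
      refine (pow_dvd_pow q (by omega : (lam q).val + 1 ≤ 3)).trans (h3.trans ?_)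
      refine dvd_of_eq ?_
      ring
    have h5 := (mul_dvd_mul_iff_left (pow_ne_zero _ hpr.ne_zero)).1 h4
    rcases hpr.dvd_or_dvd h5 with h6 | h6
    · exact hpr.not_isUnit (isUnit_of_dvd_unit h6 (hw.pow _))
    · obtain ⟨r, hr, hd⟩ := (hpr.dvd_finsetProd_iff _).1 h6
      rw [Finset.mem_erase] at hr
      exact hr.1 (pq_eq_of_dvd (hP r hr.2) (hP q hq) (hpr.dvd_of_dvd_pow hd)).symm
  refine ⟨?_, h1⟩
  have h2 : ∏ q ∈ P, q ^ (lam q).val = 1 := by
    apply Finset.prod_eq_one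
    intro q hq
    rw [h1 q hq, ZMod.val_zero, pow_zero]
  rw [h2, mul_one] at h
  have h3 : IsUnit t := by
    have : IsUnit (t ^ 3) := by rw [h]; exact hw.pow _
    exact (isUnit_pow_iff (by norm_num)).1 this
  obtain ⟨c, hc | hc⟩ := Pool.Agent.Y715.T.RecC.unit_form h3
  · rw [hc] at h
    exact (by decide : ∀ c x : ZMod 3, ((w : Ei) ^ c.val) ^ 3 = w ^ x.val → x = 0) c (lam w) h
  · rw [hc] at h
    exact (by decide : ∀ c x : ZMod 3, (-(w : Ei) ^ c.val) ^ 3 = w ^ x.val → x = 0) c (lam w) h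

section
variable {L : Type} [Field L] [NumberField L] [IsGalois ℚ L] {Z : 𝓞 L} (hZ : Z * Z = -1 - Z)

theorem hom_inj0 {x : Ei} (h : hom Z hZ x = 0) : x = 0 := by
  have h1 : hom Z hZ (x * star x) = 0 := by rw [map_mul, h, zero_mul]
  rw [mul_star, map_intCast] at h1
  exact nr_zero_iff.1 (by exact_mod_cast h1)

include hZ in
theorem zL : (Z : L) * Z = -1 - Z := by
  have := congrArg (algebraMap (𝓞 L) L) hZ
  rw [map_mul, map_sub, map_neg, map_one] at this
  exact this

theorem three_L : (3 : L) ≠ 0 := by norm_num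

theorem exists_ar {g : Gal(L/ℚ)} (hg : g • Z = Z) {x : 𝓞 L} {q : Ei} (hx : x ^ 3 = hom Z hZ q) :
    ∃ c : ZMod 3, g • x = Z ^ c.val * x := by
  have hcube : (g • x) ^ 3 = x ^ 3 := by
    rw [← smul_pow', hx, smul_hom hZ hg]
  obtain ⟨c, hc⟩ := cube_roots (zL hZ) (x := algebraMap (𝓞 L) L (g • x))
    (y := algebraMap (𝓞 L) L x) (by rw [← map_pow, ← map_pow, hcube])
  refine ⟨c, RingOfIntegers.coe_injective ?_⟩
  show algebraMap (𝓞 L) L (g • x) = algebraMap (𝓞 L) L (Z ^ c.val * x)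
  rw [hc, map_mul, map_pow]

include hZ in
theorem ar_unique {x : 𝓞 L} (hx : x ≠ 0) {c d : ZMod 3} (h : Z ^ c.val * x = Z ^ d.val * x) :
    c = d := by
  have h1 := mul_right_cancel₀ hx h
  have h2 := congrArg (algebraMap (𝓞 L) L) h1
  rw [map_pow, map_pow] at h2
  exact zp_inj (zL hZ) (three_L) h2

open scoped Classical in
/-- the exponent of `g x / x` -/
noncomputable def ar (Z : 𝓞 L) (g : Gal(L/ℚ)) (x : 𝓞 L) : ZMod 3 :=
  if h : ∃ c : ZMod 3, g • x = Z ^ c.val * x then h.choose else 0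

theorem ar_spec {g : Gal(L/ℚ)} (hg : g • Z = Z) {x : 𝓞 L} {q : Ei} (hx : x ^ 3 = hom Z hZ q) :
    g • x = Z ^ (ar Z g x).val * x := by
  have h := exists_ar hZ hg hx
  unfold ar
  rw [dif_pos h]
  exact h.choose_spec

include hZ in
theorem ar_of {g : Gal(L/ℚ)} {x : 𝓞 L} (hx0 : x ≠ 0) {c : ZMod 3} (h : g • x = Z ^ c.val * x) :
    ar Z g x = c := by
  have h' : ∃ c : ZMod 3, g • x = Z ^ c.val * x := ⟨c, h⟩
  unfold ar
  rw [dif_pos h']
  exact ar_unique hZ hx0 (h'.choose_spec.symm.trans h)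

theorem ar_mul {g g' : Gal(L/ℚ)} (hg : g • Z = Z) (hg' : g' • Z = Z) {x : 𝓞 L} (hx0 : x ≠ 0)
    {q : Ei} (hx : x ^ 3 = hom Z hZ q) : ar Z (g * g') x = ar Z g x + ar Z g' x := by
  apply ar_of hZ hx0
  rw [mul_smul, ar_spec hZ hg' hx, smul_mul', smul_pow', hg, ar_spec hZ hg hx]
  have h : Z ^ (ar Z g x + ar Z g' x).val = Z ^ (ar Z g x).val * Z ^ (ar Z g' x).val := by
    apply RingOfIntegers.coe_injective
    show algebraMap (𝓞 L) L _ = algebraMap (𝓞 L) L _
    rw [map_mul, map_pow, map_pow, map_pow]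
    exact zp_add (zL hZ) _ _
  rw [h]
  ring

/-- the automorphisms fixing `Z` -/
def HH (Z : 𝓞 L) : Subgroup Gal(L/ℚ) where
  carrier := {g | g • Z = Z}
  mul_mem' := by
    intro a b ha hb
    show (a * b) • Z = Z
    rw [mul_smul, show b • Z = Z from hb, show a • Z = Z from ha]
  one_mem' := one_smul _ _
  inv_mem' := by
    intro a ha
    show a⁻¹ • Z = Z
    rw [inv_smul_eq_iff]
    exact (show a • Z = Z from ha).symm

theorem mem_HH {g : Gal(L/ℚ)} : g ∈ HH Z ↔ g • Z = Z := Iff.rfl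

include hZ in
/-- an integer fixed by these automorphisms is in `ℚ(Z)` -/
theorem fixed_form {x : 𝓞 L} (hx : ∀ g ∈ HH Z, g • x = x) : ∃ a b : ℚ,
    (x : L) = algebraMap ℚ L a + algebraMap ℚ L b * Z := by
  have h1 : (x : L) ∈ IntermediateField.fixedField (IntermediateField.fixingSubgroup ℚ⟮(Z : L)⟯) := by
    rw [IntermediateField.mem_fixedField_iff]
    intro f hf
    have h2 : f • Z = Z := by
      apply RingOfIntegers.coe_injective
      exact (IntermediateField.mem_fixingSubgroup_iff _ _).1 hf (Z : L)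
        (IntermediateField.mem_adjoin_simple_self ℚ (Z : L))
    exact congrArg (algebraMap (𝓞 L) L) (hx f h2)
  rw [IsGalois.fixedField_fixingSubgroup] at h1
  have h2 : (x : L) ∈ Algebra.adjoin ℚ {(Z : L)} := by
    rw [← IntermediateField.adjoin_simple_toSubalgebra_of_isAlgebraic
      (Algebra.IsAlgebraic.isAlgebraic (Z : L))]
    exact h1
  refine Algebra.adjoin_induction (p := fun y _ => ∃ a b : ℚ,
    y = algebraMap ℚ L a + algebraMap ℚ L b * Z) ?_ ?_ ?_ ?_ h2
  · intro y hy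
    rw [Set.mem_singleton_iff] at hy
    subst hy
    exact ⟨0, 1, by rw [map_zero, map_one]; ring⟩
  · intro r
    exact ⟨r, 0, by rw [map_zero]; ring⟩
  · rintro y z - - ⟨a, b, rfl⟩ ⟨c, d, rfl⟩
    exact ⟨a + c, b + d, by rw [map_add, map_add]; ring⟩
  · rintro y z - - ⟨a, b, rfl⟩ ⟨c, d, rfl⟩
    refine ⟨a * c - b * d, a * d + b * c - b * d, ?_⟩
    rw [map_sub, map_sub, map_add, map_mul, map_mul, map_mul, map_mul]
    linear_combination (algebraMap ℚ L b) * (algebraMap ℚ L d) * (zL hZ)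

/-- if the cube of a fixed integer is in `ℤ[ω]`, it is the cube of an element of `ℤ[ω]` -/
theorem cube_of_fixed {x : 𝓞 L} (hx : ∀ g ∈ HH Z, g • x = x) {m : Ei} (hm : x ^ 3 = hom Z hZ m) :
    ∃ t : Ei, t ^ 3 = m := by
  obtain ⟨a, b, hab⟩ := fixed_form hZ hx
  set n : ℤ := (a.den : ℤ) * b.den with hn
  have hn0 : n ≠ 0 := by
    rw [hn]
    exact mul_ne_zero (by exact_mod_cast a.den_ne_zero) (by exact_mod_cast b.den_ne_zero)
  set y : Ei := ⟨a.num * b.den, b.num * a.den⟩ with hy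
  have h1 : (n : 𝓞 L) * x = hom Z hZ y := by
    apply RingOfIntegers.coe_injective
    show algebraMap (𝓞 L) L _ = algebraMap (𝓞 L) L _
    rw [map_mul, map_intCast, hom_apply, map_add, map_mul, map_intCast, map_intCast]
    have e1 : (x : L) = algebraMap (𝓞 L) L x := rfl
    rw [← e1, hab, hn, hy]
    have ha : (algebraMap ℚ L a) * (a.den : L) = (a.num : L) := by
      have := congrArg (algebraMap ℚ L) (Rat.mul_den_eq_num a)
      rw [map_mul, map_natCast, map_intCast] at this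
      exact this
    have hb : (algebraMap ℚ L b) * (b.den : L) = (b.num : L) := by
      have := congrArg (algebraMap ℚ L) (Rat.mul_den_eq_num b)
      rw [map_mul, map_natCast, map_intCast] at this
      exact this
    have e2 : (Z : L) = algebraMap (𝓞 L) L Z := rfl
    rw [← e2]
    push_cast
    linear_combination (b.den : L) * ha + (a.den : L) * (Z : L) * hb
  have h2 : y ^ 3 = ((n : ℤ) : Ei) ^ 3 * m := by
    have h3 : hom Z hZ (y ^ 3 - ((n : ℤ) : Ei) ^ 3 * m) = 0 := by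
      rw [map_sub, map_mul, map_pow, map_pow, ← h1, ← hm, map_intCast]
      ring
    exact sub_eq_zero.1 (hom_inj0 hZ h3)
  have hnE : ((n : ℤ) : Ei) ≠ 0 := by exact_mod_cast hn0
  have h3 : ((n : ℤ) : Ei) ∣ y := by
    rw [← UniqueFactorizationMonoid.pow_dvd_pow_iff_dvd (n := 3) (by norm_num)]
    exact ⟨m, h2⟩
  obtain ⟨t, ht⟩ := h3
  refine ⟨t, ?_⟩
  rw [ht, mul_pow] at h2
  exact mul_left_cancel₀ (pow_ne_zero 3 hnE) h2

end

/-- the data -/
structure Dat (L : Type) [Field L] [NumberField L] [IsGalois ℚ L] (P : Finset Ei) where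
  Z : 𝓞 L
  hZ : Z * Z = -1 - Z
  s : Ei → 𝓞 L
  hw : s w ^ 3 = hom Z hZ w
  hs : ∀ q ∈ P, s q ^ 3 = hom Z hZ q

section
variable {L : Type} [Field L] [NumberField L] [IsGalois ℚ L] {P : Finset Ei} (E : Dat L P)
  (hP : ∀ q ∈ P, Pq q)

theorem Dat.w0 : E.s w ≠ 0 := by
  intro h0
  have h1 := E.hw
  rw [h0, zero_pow (by norm_num), hom_w] at h1
  have h2 := E.hZ
  rw [← h1] at h2
  norm_num at h2

include hP in
theorem Dat.s0 {q : Ei} (h : q ∈ P) : E.s q ≠ 0 := by
  intro h0
  have h1 := E.hs q h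
  rw [h0, zero_pow (by norm_num)] at h1
  exact (hP q h).prime.ne_zero (hom_inj0 E.hZ h1.symm)

/-- the homomorphism to the symbols -/
noncomputable def Dat.Ψ : HH E.Z →* Multiplicative ((P → ZMod 3) × ZMod 3) where
  toFun g := Multiplicative.ofAdd (fun q : P => ar E.Z g.1 (E.s (q : Ei)), ar E.Z g.1 (E.s w))
  map_one' := by
    have h : ∀ x : 𝓞 L, x ≠ 0 → ar E.Z (1 : Gal(L/ℚ)) x = 0 := fun x hx => by
      apply ar_of E.hZ hx
      rw [one_smul, ZMod.val_zero, pow_zero, one_mul]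
    rw [← ofAdd_zero]
    congr 1
    refine Prod.ext ?_ ?_
    · funext q
      exact h _ (E.s0 hP q.2)
    · exact h _ E.w0
  map_mul' g h := by
    rw [← ofAdd_add]
    congr 1
    refine Prod.ext ?_ ?_
    · funext q
      exact ar_mul E.hZ g.2 h.2 (E.s0 hP q.2) (E.hs q q.2)
    · exact ar_mul E.hZ g.2 h.2 E.w0 E.hw

theorem Dat.surj : Function.Surjective (E.Ψ hP) := by
  classical
  set W : AddSubgroup ((P → ZMod 3) × ZMod 3) :=
    { carrier := {x | ∃ g, E.Ψ hP g = Multiplicative.ofAdd x}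
      add_mem' := by
        rintro a b ⟨g, hg⟩ ⟨g', hg'⟩
        exact ⟨g * g', by rw [map_mul, hg, hg', ofAdd_add]⟩
      zero_mem' := ⟨1, by rw [map_one, ofAdd_zero]⟩
      neg_mem' := by
        rintro a ⟨g, hg⟩
        exact ⟨g⁻¹, by rw [map_inv, hg, ofAdd_neg]⟩ } with hW
  have hmemW : ∀ x, x ∈ W ↔ ∃ g, E.Ψ hP g = Multiplicative.ofAdd x := fun x => Iff.rfl
  haveI : Fact (Nat.Prime 3) := ⟨Nat.prime_three⟩
  set V : Submodule (ZMod 3) ((P → ZMod 3) × ZMod 3) := AddSubgroup.toZModSubmodule 3 W with hV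
  have hmemV : ∀ x, x ∈ V ↔ ∃ g, E.Ψ hP g = Multiplicative.ofAdd x := fun x => Iff.rfl
  have htop : V = ⊤ := by
    by_contra hne
    obtain ⟨f, hf0, hf⟩ := Submodule.exists_le_ker_of_lt_top V (lt_top_iff_ne_top.2 hne)
    set lam : Ei → ZMod 3 := fun q => if h : q ∈ P then f (Pi.single ⟨q, h⟩ 1, 0) else
      if q = w then f (0, 1) else 0 with hlam
    have hwP : w ∉ P := by
      intro h
      apply (hP w h).prime.not_isUnit
      rw [Pool.Agent.Y692.QS.isUnit_iff]; decide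
    have hlw : lam w = f (0, 1) := by
      rw [hlam]
      simp only
      rw [dif_neg hwP]
      simp
    have hlq : ∀ q : P, lam (q : Ei) = f (Pi.single q 1, 0) := by
      intro q
      rw [hlam]
      simp only
      rw [dif_pos q.2]
    have hfx : ∀ (v : P → ZMod 3) (e : ZMod 3), f (v, e) = ∑ q : P, v q * lam (q : Ei) + e * lam w := by
      intro v e
      have h1 : ((v, e) : (P → ZMod 3) × ZMod 3) = ∑ q : P, v q • ((Pi.single q 1 : P → ZMod 3),
          (0 : ZMod 3)) + e • ((0 : P → ZMod 3), (1 : ZMod 3)) := by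
        refine Prod.ext ?_ ?_
        · funext r
          simp [Prod.fst_sum, Finset.sum_apply, Pi.single_apply]
        · simp [Prod.snd_sum]
      rw [h1, map_add, map_sum, map_smul, smul_eq_mul, hlw]
      congr 1
      refine Finset.sum_congr rfl fun q _ => ?_
      rw [map_smul, smul_eq_mul, hlq]
    set x : 𝓞 L := E.s w ^ (lam w).val * ∏ q ∈ P, E.s q ^ (lam q).val with hx
    have hfix : ∀ g ∈ HH E.Z, g • x = x := by
      intro g hg
      have h1 : f (fun q : P => ar E.Z g (E.s (q : Ei)), ar E.Z g (E.s w)) = 0 :=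
        hf ((hmemV _).2 ⟨⟨g, hg⟩, rfl⟩)
      rw [hfx] at h1
      have hs : ∀ q ∈ P, g • E.s q = E.Z ^ (ar E.Z g (E.s q)).val * E.s q :=
        fun q hq => ar_spec E.hZ hg (E.hs q hq)
      have hsw : g • E.s w = E.Z ^ (ar E.Z g (E.s w)).val * E.s w := ar_spec E.hZ hg E.hw
      have h2 : g • x = E.Z ^ ((ar E.Z g (E.s w)).val * (lam w).val +
          ∑ q ∈ P, (ar E.Z g (E.s q)).val * (lam q).val) * x := by
        rw [hx, smul_mul', smul_pow', hsw, Finset.smul_prod']
        have h3 : ∏ q ∈ P, g • E.s q ^ (lam q).val =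
            (∏ q ∈ P, E.Z ^ ((ar E.Z g (E.s q)).val * (lam q).val)) *
              ∏ q ∈ P, E.s q ^ (lam q).val := by
          rw [← Finset.prod_mul_distrib]
          refine Finset.prod_congr rfl fun q hq => ?_
          rw [smul_pow', hs q hq, mul_pow, ← pow_mul]
        rw [h3, Finset.prod_pow_eq_pow_sum, mul_pow, ← pow_mul, pow_add]
        ring
      have h4 : 3 ∣ ((ar E.Z g (E.s w)).val * (lam w).val +
          ∑ q ∈ P, (ar E.Z g (E.s q)).val * (lam q).val) := by
        rw [← ZMod.natCast_eq_zero_iff]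
        push_cast
        simp only [ZMod.natCast_val, ZMod.cast_id', id_eq]
        rw [← h1, add_comm, ← Finset.sum_coe_sort P
          (fun q => ar E.Z g (E.s q) * lam q)]
      obtain ⟨k, hk⟩ := h4
      have hZ3 : E.Z ^ 3 = 1 := by
        apply RingOfIntegers.coe_injective
        show algebraMap (𝓞 L) L _ = algebraMap (𝓞 L) L _
        rw [map_pow, map_one]
        exact z_cube (zL E.hZ)
      rw [h2, hk, pow_mul, hZ3, one_pow, one_mul]
    have hcube : x ^ 3 = hom E.Z E.hZ (w ^ (lam w).val * ∏ q ∈ P, q ^ (lam q).val) := by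
      rw [hx, mul_pow, map_mul, map_pow, map_prod, ← E.hw, ← Finset.prod_pow, ← pow_mul, ← pow_mul,
        mul_comm (lam w).val 3]
      congr 1
      refine Finset.prod_congr rfl fun q hq => ?_
      rw [map_pow, ← E.hs q hq, ← pow_mul, ← pow_mul, mul_comm]
    obtain ⟨t, ht⟩ := cube_of_fixed E.hZ hfix hcube
    obtain ⟨h5, h6⟩ := indep P hP lam ht
    apply hf0
    apply LinearMap.ext
    rintro ⟨v, e⟩
    rw [hfx, h5, mul_zero, add_zero, LinearMap.zero_apply]
    apply Finset.sum_eq_zero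
    intro q _
    rw [h6 q q.2, mul_zero]
  intro x
  have : Multiplicative.toAdd x ∈ V := by rw [htop]; exact Submodule.mem_top
  exact (hmemV _).1 this

theorem Dat.ratio (Q : (P → ZMod 3) × ZMod 3 → Prop) :
    (Nat.card {g : HH E.Z // Q (Multiplicative.toAdd (E.Ψ hP g))} : ℝ) / (Nat.card (HH E.Z) : ℝ) =
      (Nat.card {x : (P → ZMod 3) × ZMod 3 // Q x} : ℝ) / 3 ^ (P.card + 1) := by
  have hsur := E.surj hP
  have h1 := Pool.Agent.W401.Cheb.card_fib (E.Ψ hP) (fun b => Q (Multiplicative.toAdd b))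
    (fun b _ => hsur b)
  have h2 := Pool.Agent.W401.Cheb.card_fib (E.Ψ hP) (fun _ => True) (fun b _ => hsur b)
  have h3 : Nat.card {a : HH E.Z // True} = Nat.card (HH E.Z) :=
    Nat.card_congr (Equiv.subtypeUnivEquiv fun _ => trivial)
  have h4 : Nat.card {b : Multiplicative ((P → ZMod 3) × ZMod 3) // True} =
      3 ^ (P.card + 1) := by
    have : Nat.card ((P → ZMod 3) × ZMod 3) = 3 ^ (P.card + 1) := by
      rw [Nat.card_prod, Nat.card_fun]
      simp [Nat.card_zmod, pow_succ]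
    rw [← this]
    exact Nat.card_congr (Equiv.subtypeUnivEquiv fun _ => trivial)
  have h5 : Nat.card {b : Multiplicative ((P → ZMod 3) × ZMod 3) // Q (Multiplicative.toAdd b)} =
      Nat.card {x : (P → ZMod 3) × ZMod 3 // Q x} := rfl
  rw [h3, h4] at h2
  rw [h5] at h1
  rw [h1, h2]
  have hk : 0 < Nat.card (E.Ψ hP).ker := Nat.card_pos
  push_cast
  have hk' : (Nat.card (E.Ψ hP).ker : ℝ) ≠ 0 := by positivity
  field_simp

end

end Q283.TC
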