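import Mathlib

/-!
# Laplacians over the field with three elements: one new vertex
-/

set_option autoImplicit false

namespace Q283.TC

open Finset

variable {ι : Type*} [DecidableEq ι]

/-- the kernel of the Laplacian of `a` on `S` consists of the constants -/
def Conn (a : ι → ι → ZMod 3) (S : Finset ι) : Prop :=
  ∀ v : ι → ZMod 3, (∀ q ∈ S, ∑ r ∈ S, a q r * (v r - v q) = 0) → ∀ q ∈ S, ∀ r ∈ S, v q = v r

/-- the Laplacian of `a` on `S` with `u` added to the diagonal is nonsingular -/
def NS (a : ι → ι → ZMod 3) (S : Finset ι) (u : ι → ZMod 3) : Prop :=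
  ∀ v : ι → ZMod 3, (∀ q ∈ S, ∑ r ∈ S, a q r * (v r - v q) = u q * v q) → ∀ q ∈ S, v q = 0

theorem ns_congr {a : ι → ι → ZMod 3} {S : Finset ι} {u u' : ι → ZMod 3}
    (h : ∀ q ∈ S, u q = u' q) : NS a S u ↔ NS a S u' := by
  unfold NS
  constructor
  · intro h1 v hv
    exact h1 v fun q hq => by rw [h q hq]; exact hv q hq
  · intro h1 v hv
    exact h1 v fun q hq => by rw [← h q hq]; exact hv q hq

/-- **One new vertex.** -/
theorem conn_insert (a : ι → ι → ZMod 3) (S : Finset ι) (hsym : ∀ q ∈ S, ∀ r ∈ S, a q r = a r q)
    {p : ι} (hp : p ∉ S) (hps : ∀ q ∈ S, a q p = a p q) :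
    Conn a (insert p S) ↔ NS a S (fun q => a p q) := by
  constructor
  · intro h v hv
    set v' : ι → ZMod 3 := fun q => if q = p then 0 else v q with hv'
    have e0 : v' p = 0 := by rw [hv']; simp
    have e1 : ∀ q ∈ S, v' q = v q := by
      intro q hq
      rw [hv']
      simp only
      rw [if_neg]
      rintro rfl
      exact hp hq
    have hz : ∑ q ∈ S, a p q * v q = 0 := by
      have h1 : ∑ q ∈ S, ∑ r ∈ S, a q r * (v r - v q) = ∑ q ∈ S, a p q * v q :=
        Finset.sum_congr rfl hv
      have h2 : ∑ q ∈ S, ∑ r ∈ S, a q r * (v r - v q) = 0 := by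
        have h3 : ∑ q ∈ S, ∑ r ∈ S, a q r * (v r - v q) =
            ∑ q ∈ S, ∑ r ∈ S, a q r * v r - ∑ q ∈ S, ∑ r ∈ S, a q r * v q := by
          rw [← Finset.sum_sub_distrib]
          refine Finset.sum_congr rfl fun q _ => ?_
          rw [← Finset.sum_sub_distrib]
          refine Finset.sum_congr rfl fun r _ => ?_
          ring
        rw [h3, Finset.sum_comm (f := fun q r => a q r * v r), sub_eq_zero]
        refine Finset.sum_congr rfl fun q hq => Finset.sum_congr rfl fun r hr => ?_
        rw [hsym r hr q hq]
      rw [← h1, h2]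
    have h4 := h v' (by
      intro q hq
      rw [Finset.sum_insert hp]
      rcases Finset.mem_insert.1 hq with rfl | hq
      · have h5 : ∑ r ∈ S, a q r * (v' r - v' q) = ∑ r ∈ S, a q r * v r :=
          Finset.sum_congr rfl fun r hr => by rw [e1 r hr, e0, sub_zero]
        rw [h5, hz, sub_self, mul_zero, zero_add]
      · have h5 : ∑ r ∈ S, a q r * (v' r - v' q) = ∑ r ∈ S, a q r * (v r - v q) :=
          Finset.sum_congr rfl fun r hr => by rw [e1 r hr, e1 q hq]
        rw [h5, hv q hq, e0, e1 q hq, hps q hq]
        ring)
    intro q hq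
    rw [← e1 q hq, ← e0]
    exact h4 q (Finset.mem_insert_of_mem hq) p (Finset.mem_insert_self _ _)
  · intro h v hv
    have h1 : ∀ q ∈ S, v q - v p = 0 := by
      refine h (fun q => v q - v p) fun q hq => ?_
      have h2 := hv q (Finset.mem_insert_of_mem hq)
      rw [Finset.sum_insert hp, hps q hq] at h2
      have h3 : ∑ r ∈ S, a q r * (v r - v p - (v q - v p)) = ∑ r ∈ S, a q r * (v r - v q) :=
        Finset.sum_congr rfl fun r _ => by ring
      rw [h3]
      linear_combination h2
    have h2 : ∀ q ∈ insert p S, v q = v p := by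
      intro q hq
      rcases Finset.mem_insert.1 hq with rfl | hq
      · rfl
      · exact sub_eq_zero.1 (h1 q hq)
    intro q hq r hr
    rw [h2 q hq, h2 r hr]

/-- at most one value of the last diagonal entry is bad -/
theorem ns_unique {a : ι → ι → ZMod 3} {S : Finset ι} {p : ι} (hp : p ∉ S) {u : ι → ZMod 3}
    (h : NS a S (fun q => u q + a q p)) {c d : ZMod 3}
    (hc : ¬ NS a (insert p S) (Function.update u p c))
    (hd : ¬ NS a (insert p S) (Function.update u p d)) : c = d := by
  have key : ∀ c : ZMod 3, ¬ NS a (insert p S) (Function.update u p c) →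
      ∃ v : ι → ZMod 3, v p = 1 ∧ (∀ q ∈ S, ∑ r ∈ S, a q r * (v r - v q) + a q p * (1 - v q) =
        u q * v q) ∧ ∑ r ∈ S, a p r * (v r - 1) = c := by
    intro c hc
    unfold NS at hc
    push Not at hc
    obtain ⟨v, hv, q₀, hq₀, hne⟩ := hc
    have hS : ∀ q ∈ S, ∑ r ∈ S, a q r * (v r - v q) + a q p * (v p - v q) = u q * v q := by
      intro q hq
      have h1 := hv q (Finset.mem_insert_of_mem hq)
      rw [Finset.sum_insert hp, Function.update_of_ne (by rintro rfl; exact hp hq)] at h1
      linear_combination h1
    have hP : ∑ r ∈ S, a p r * (v r - v p) = c * v p := by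
      have h1 := hv p (Finset.mem_insert_self _ _)
      rw [Finset.sum_insert hp, Function.update_self, sub_self, mul_zero, zero_add] at h1
      exact h1
    have hvp : v p ≠ 0 := by
      intro h0
      have h1 : ∀ q ∈ S, v q = 0 := by
        refine h v fun q hq => ?_
        have h2 := hS q hq
        rw [h0] at h2
        linear_combination h2
      rcases Finset.mem_insert.1 hq₀ with rfl | h2
      · exact hne h0
      · exact hne (h1 _ h2)
    have hinv : v p * v p = 1 := by
      have : ∀ x : ZMod 3, x ≠ 0 → x * x = 1 := by decide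
      exact this _ hvp
    refine ⟨fun q => v p * v q, hinv, ?_, ?_⟩
    · intro q hq
      have h1 := hS q hq
      have h2 : ∑ r ∈ S, a q r * (v p * v r - v p * v q) = v p * ∑ r ∈ S, a q r * (v r - v q) := by
        rw [Finset.mul_sum]
        exact Finset.sum_congr rfl fun r _ => by ring
      simp only
      rw [h2]
      linear_combination v p * h1 - a q p * hinv
    · have h2 : ∑ r ∈ S, a p r * (v p * v r - 1) = v p * ∑ r ∈ S, a p r * (v r - v p) := by
        rw [Finset.mul_sum]
        refine Finset.sum_congr rfl fun r _ => ?_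
        linear_combination a p r * hinv
      simp only
      rw [h2, hP]
      linear_combination c * hinv
  obtain ⟨v, v1, v2, v3⟩ := key c hc
  obtain ⟨v', w1, w2, w3⟩ := key d hd
  have h1 : ∀ q ∈ S, v q - v' q = 0 := by
    refine h (fun q => v q - v' q) fun q hq => ?_
    have h2 := v2 q hq
    have h3 := w2 q hq
    have h4 : ∑ r ∈ S, a q r * (v r - v' r - (v q - v' q)) =
        ∑ r ∈ S, a q r * (v r - v q) - ∑ r ∈ S, a q r * (v' r - v' q) := by
      rw [← Finset.sum_sub_distrib]
      exact Finset.sum_congr rfl fun r _ => by ring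
    simp only
    rw [h4]
    linear_combination h2 - h3
  rw [← v3, ← w3]
  refine Finset.sum_congr rfl fun r hr => ?_
  rw [sub_eq_zero.1 (h1 r hr)]

theorem exists_family_aux {κ : Type*} (a : ι → ι → ZMod 3) (I : Finset κ) (P : Finset ι) :
    ∀ (S : κ → Finset ι) (e : κ → ι → ZMod 3), (∀ i ∈ I, S i ⊆ P) →
    (∀ p, (I.filter fun i => p ∈ S i).card ≤ 2) → ∃ u : ι → ZMod 3,
      ∀ i ∈ I, NS a (S i) (fun q => u q + e i q) := by
  classical
  induction P using Finset.induction_on with
  | empty =>
    intro S e h _
    refine ⟨0, fun i hi v _ q hq => ?_⟩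
    have := h i hi
    rw [Finset.subset_empty] at this
    rw [this] at hq
    exact absurd hq (Finset.notMem_empty q)
  | insert p P hp ih =>
    intro S e h hcard
    have hsub : ∀ i ∈ I, (S i).erase p ⊆ P := by
      intro i hi x hx
      rw [Finset.mem_erase] at hx
      rcases Finset.mem_insert.1 (h i hi hx.2) with h | h
      · exact absurd h hx.1
      · exact h
    obtain ⟨u, hu⟩ := ih (fun i => (S i).erase p)
      (fun i q => e i q + if p ∈ S i then a q p else 0) hsub (by
        intro q
        refine le_trans (Finset.card_le_card ?_) (hcard q)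
        intro i hi
        rw [Finset.mem_filter] at hi ⊢
        exact ⟨hi.1, Finset.mem_of_mem_erase hi.2⟩)
    have key1 : ∀ i ∈ I, p ∉ S i → ∀ c : ZMod 3,
        NS a (S i) (fun q => Function.update u p c q + e i q) := by
      intro i hi hpS c
      have h3 : (S i).erase p = S i := Finset.erase_eq_of_notMem hpS
      have h4 := hu i hi
      rw [h3] at h4
      refine (ns_congr fun q hq => ?_).1 h4
      rw [if_neg hpS, add_zero, Function.update_of_ne]
      rintro rfl
      exact hpS hq
    have key : ∀ i ∈ I, p ∈ S i → ∀ c d : ZMod 3,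
        ¬ NS a (S i) (fun q => Function.update u p c q + e i q) →
        ¬ NS a (S i) (fun q => Function.update u p d q + e i q) → c = d := by
      intro i hi hpS c d hc hd
      have hins : insert p ((S i).erase p) = S i := Finset.insert_erase hpS
      have hupd : ∀ c : ZMod 3, (fun q => Function.update u p c q + e i q) =
          Function.update (fun q => u q + e i q) p (c + e i p) := by
        intro c
        funext q
        by_cases hq : q = p
        · subst hq
          rw [Function.update_self, Function.update_self]
        · rw [Function.update_of_ne hq, Function.update_of_ne hq]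
      rw [hupd, ← hins] at hc hd
      have h3 : NS a ((S i).erase p) (fun q => (fun q => u q + e i q) q + a q p) := by
        refine (ns_congr fun q _ => ?_).1 (hu i hi)
        rw [if_pos hpS]
        ring
      exact add_right_cancel (ns_unique (Finset.notMem_erase p (S i)) h3 hc hd)
    by_contra hno
    push Not at hno
    set J := I.filter fun i => p ∈ S i with hJ
    have hall : ∀ c : ZMod 3, ∃ i ∈ J, ¬ NS a (S i) (fun q => Function.update u p c q + e i q) := by
      intro c
      obtain ⟨i, hi, h5⟩ := hno (Function.update u p c)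
      refine ⟨i, Finset.mem_filter.2 ⟨hi, ?_⟩, h5⟩
      by_contra hpS
      exact h5 (key1 i hi hpS c)
    choose f hf1 hf2 using hall
    have hinj : Function.Injective f := by
      intro c d hcd
      have h6 := (Finset.mem_filter.1 (hf1 c))
      refine key (f c) h6.1 h6.2 c d (hf2 c) ?_
      have := hf2 d
      rw [← hcd] at this
      exact this
    have hle : (Finset.univ.image f).card ≤ J.card := by
      refine Finset.card_le_card ?_
      intro i hi
      obtain ⟨c, -, rfl⟩ := Finset.mem_image.1 hi
      exact hf1 c
    rw [Finset.card_image_of_injective _ hinj, Finset.card_univ, ZMod.card] at hle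
    have h9 : J.card ≤ 2 := by convert hcard p
    omega

/-- **Several graphs.** For all weights and all finite families of finite sets such that no vertex
is in three of them there is one diagonal perturbation that makes all Laplacians nonsingular. -/
theorem exists_family {κ : Type*} (a : ι → ι → ZMod 3) (I : Finset κ) (S : κ → Finset ι)
    (h : ∀ p, (I.filter fun i => p ∈ S i).card ≤ 2) : ∃ u : ι → ZMod 3,
      ∀ i ∈ I, NS a (S i) u := by
  obtain ⟨u, hu⟩ := exists_family_aux a I (I.biUnion S) S 0
    (fun i hi => Finset.subset_biUnion_of_mem S hi) h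
  exact ⟨u, fun i hi => (ns_congr fun q _ => by simp).1 (hu i hi)⟩

end Q283.TC
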