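import Pool.Agent.Q283.TC.Main
import Pool.Agent.Q283.TC.Lin
import Pool.Agent.Q283.TC.Field
import Pool.Agent.Y703.CT.StmE
import Pool.Agent.Y350.CT.REC

/-!
# The criterion for `D z`, `z` a new primary prime, and the density
-/

set_option autoImplicit false
set_option linter.unusedSectionVars false
set_option linter.style.haveILetI false

open scoped Classical

namespace Q283.TC

open NumberField Filter Topology Finset
open Pool.Agent.Y692.QS (Ei w nr hom hom_apply hom_w w_cube mul_star nr_nonneg nr_zero_iff nr_mul)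
open Pool.Agent.Y715.T.Rec (cs nn)
open Pool.Agent.Y715.T.RecG (Pq)
open Pool.Agent.Y703.CT (ClsE GoodE ppr)

/-- squarefree and primary -/
def Prm (D : Ei) : Prop := (3 : Ei) ∣ D - 1 ∧ Squarefree D

theorem ppr_fin {D : Ei} (hD : D ≠ 0) : {π : Ei | Pq π ∧ π ∣ D}.Finite := by
  refine (fin_nr (nr D).natAbs).subset ?_
  rintro π ⟨-, c, hc⟩
  have h1 : nr D ≠ 0 := fun h => hD (nr_zero_iff.1 h)
  have h2 := nr_nonneg D
  have h3 := nr_nonneg π
  have h4 := nr_nonneg c
  have h5 : nr D = nr π * nr c := by rw [hc, nr_mul]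
  show nr π ≤ ((nr D).natAbs : ℤ)
  rw [Int.natAbs_of_nonneg h2, h5]
  have h6 : nr c ≠ 0 := by
    intro h; rw [h, mul_zero] at h5; exact h1 h5
  nlinarith [mul_nonneg h3 (show 0 ≤ nr c - 1 by omega)]

theorem mem_ppr {D : Ei} (hD : D ≠ 0) {q : Ei} : q ∈ ppr D ↔ Pq q ∧ q ∣ D := by
  unfold ppr
  rw [dif_pos (ppr_fin hD), Set.Finite.mem_toFinset]
  rfl

theorem ppr_mul {D z : Ei} (hD : D ≠ 0) (hz : Pq z) : ppr (D * z) = insert z (ppr D) := by
  ext q
  rw [mem_ppr (mul_ne_zero hD hz.prime.ne_zero), Finset.mem_insert, mem_ppr hD]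
  constructor
  · rintro ⟨h1, h2⟩
    rcases h1.prime.dvd_or_dvd h2 with h3 | h3
    · exact Or.inr ⟨h1, h3⟩
    · exact Or.inl (pq_eq_of_dvd hz h1 h3)
  · rintro (rfl | ⟨h1, h2⟩)
    · exact ⟨hz, dvd_mul_left _ _⟩
    · exact ⟨h1, h2.mul_right _⟩

theorem cls_mul {D z : Ei} (hD : Prm D) (hz : Pq z) :
    ClsE (D * z) ↔ z ∉ ppr D ∧ ¬ (9 : ℤ) ∣ nr D * nr z - 1 := by
  have hD0 : D ≠ 0 := hD.2.ne_zero
  unfold ClsE
  rw [mem_ppr hD0, nr_mul]
  constructor
  · rintro ⟨-, h2, h3⟩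
    refine ⟨?_, h3⟩
    rintro ⟨-, hd⟩
    obtain ⟨c, hc⟩ := hd
    exact hz.prime.not_isUnit (h2 z ⟨c, by rw [hc]; ring⟩)
  · rintro ⟨h1, h2⟩
    have hnd : ¬ z ∣ D := fun h => h1 ⟨hz, h⟩
    refine ⟨?_, ?_, h2⟩
    · have e : D * z - 1 = (D - 1) * z + (z - 1) := by ring
      rw [e]
      exact dvd_add (hD.1.mul_right _) hz.three
    · rw [squarefree_mul_iff]
      refine ⟨?_, hD.2, hz.prime.squarefree⟩
      exact (((hz.prime.irreducible.coprime_iff_not_dvd).2 hnd).symm).isRelPrime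

theorem cs_w {z : Ei} (hz : Pq z) : cs z w = (nn z : ZMod 3) := by
  apply Pool.Agent.Y715.T.RecG.cs_of hz.prime hz.norm
  have h : (w : Ei) ^ nn z = w ^ ((nn z : ZMod 3)).val := by
    rw [ZMod.val_natCast]
    conv_lhs => rw [← Nat.div_add_mod (nn z) 3, pow_add, pow_mul, w_cube, one_pow, one_mul]
  rw [h, sub_self]
  exact dvd_zero _

theorem nr_form {z : Ei} (hz : Pq z) : nr z = 3 * (nn z : ℤ) + 1 := by
  have h := Pool.Agent.Y715.T.RecC.nr_nn hz.prime hz.norm
  have h2 := nr_nonneg z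
  omega

/-- the condition on the norm in terms of the symbol -/
theorem nine_iff {z : Ei} (hz : Pq z) (a : ℤ) :
    (9 : ℤ) ∣ a * nr z - 1 ↔ (9 : ℤ) ∣ a * (3 * ((cs z w).val : ℤ) + 1) - 1 := by
  rw [cs_w hz, ZMod.val_natCast, nr_form hz]
  have h : (9 : ℤ) ∣ (a * (3 * (nn z : ℤ) + 1) - 1) - (a * (3 * ((nn z % 3 : ℕ) : ℤ) + 1) - 1) := by
    have e : (nn z : ℤ) = 3 * ((nn z / 3 : ℕ) : ℤ) + ((nn z % 3 : ℕ) : ℤ) := by
      exact_mod_cast (Nat.div_add_mod (nn z) 3).symm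
    refine ⟨a * ((nn z / 3 : ℕ) : ℤ), ?_⟩
    linear_combination (3 * a) * e
  exact (dvd_iff_dvd_of_dvd_sub h)

section
variable {n : ℕ} (D : Fin n → Ei)

/-- the admissible classes -/
def okE (e : ZMod 3) : Prop := ∀ i, ¬ (9 : ℤ) ∣ nr (D i) * (3 * (e.val : ℤ) + 1) - 1

/-- all the primes that divide one of the elements -/
noncomputable def PP : Finset Ei := Finset.univ.biUnion fun i => ppr (D i)

/-- extension by zero -/
noncomputable def ex (P : Finset Ei) (u : P → ZMod 3) (q : Ei) : ZMod 3 :=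
  if h : q ∈ P then u ⟨q, h⟩ else 0

def AllE (z : Ei) : Prop := ∀ i, ClsE (D i * z)

def GoodAll (z : Ei) : Prop := ∀ i, GoodE (D i * z)

/-- the proportion of the perturbations that make all the Laplacians nonsingular -/
noncomputable def cE : ℝ :=
  (Nat.card {u : PP D → ZMod 3 // ∀ i, NS cs (ppr (D i)) (ex (PP D) u)} : ℝ) / 3 ^ (PP D).card

variable (hD : ∀ i, Prm (D i))

include hD in
theorem PP_pq : ∀ q ∈ PP D, Pq q := by
  intro q hq
  obtain ⟨i, -, h⟩ := Finset.mem_biUnion.1 hq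
  exact ((mem_ppr (hD i).2.ne_zero).1 h).1

theorem not_mem_i {z : Ei} (h : z ∉ PP D) (i : Fin n) : z ∉ ppr (D i) :=
  fun h1 => h (Finset.mem_biUnion.2 ⟨i, Finset.mem_univ _, h1⟩)

include hD in
theorem all_iff {z : Ei} (hz : Pq z) (hzP : z ∉ PP D) : AllE D z ↔ okE D (cs z w) := by
  unfold AllE okE
  refine forall_congr' fun i => ?_
  rw [cls_mul (hD i) hz, nine_iff hz]
  exact ⟨fun h => h.2, fun h => ⟨not_mem_i D hzP i, h⟩⟩

include hD in
theorem goodall_iff {z : Ei} (hz : Pq z) (hzP : z ∉ PP D) : GoodAll D z ↔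
    okE D (cs z w) ∧ ∀ i, NS cs (ppr (D i)) (ex (PP D) fun q : PP D => cs z q) := by
  rw [← all_iff D hD hz hzP]
  unfold GoodAll AllE
  rw [← forall_and]
  refine forall_congr' fun i => ?_
  have hi := not_mem_i D hzP i
  have hD0 : D i ≠ 0 := (hD i).2.ne_zero
  have hcomm : ∀ q r : Ei, Pq q → Pq r → q ≠ r → cs q r = cs r q := by
    intro q r hq hr hne
    exact Pool.Agent.Y350.CT.rec r q hr hq fun hd => hne (pq_eq_of_dvd hr hq hd)
  have hP : ∀ q ∈ ppr (D i), Pq q := fun q hq => ((mem_ppr hD0).1 hq).1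
  have key : Conn cs (insert z (ppr (D i))) ↔ NS cs (ppr (D i)) (fun q => cs z q) := by
    apply conn_insert
    · intro q hq r hr
      by_cases hqr : q = r
      · rw [hqr]
      · exact hcomm q r (hP q hq) (hP r hr) hqr
    · exact hi
    · intro q hq
      refine hcomm q z (hP q hq) hz ?_
      rintro rfl
      exact hi hq
  have hns : NS cs (ppr (D i)) (fun q => cs z q) ↔
      NS cs (ppr (D i)) (ex (PP D) fun q : PP D => cs z q) := by
    refine ns_congr fun q hq => ?_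
    unfold ex
    have hqP : q ∈ PP D := Finset.mem_biUnion.2 ⟨i, Finset.mem_univ _, hq⟩
    rw [dif_pos hqP]
  rw [← hns, ← key]
  unfold GoodE ClsE Conn
  rw [ppr_mul hD0 hz]
  constructor
  · rintro ⟨h1, h2, h3, h4⟩
    exact ⟨⟨h1, h2, h3⟩, h4⟩
  · rintro ⟨⟨h1, h2, h3⟩, h4⟩
    exact ⟨h1, h2, h3, h4⟩

theorem card_split (A B : Type) (p : A → Prop) (q : B → Prop) :
    Nat.card {x : A × B // q x.2 ∧ p x.1} = Nat.card {b // q b} * Nat.card {a // p a} := by
  rw [← Nat.card_prod]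
  refine Nat.card_congr
    { toFun := fun x => (⟨x.1.2, x.2.1⟩, ⟨x.1.1, x.2.2⟩)
      invFun := fun x => ⟨(x.2.1, x.1.1), x.1.2, x.2.2⟩
      left_inv := fun x => rfl
      right_inv := fun x => rfl }

include hD in
/-- **The density**, in the Eisenstein integers. -/
theorem main_E :
    Tendsto (fun X : ℕ => (NT (AllE D) X : ℝ) / (NT (fun _ => True) X : ℝ)) atTop
      (𝓝 ((Nat.card {e // okE D e} : ℝ) / 3)) ∧
    (0 < Nat.card {e // okE D e} →
      Tendsto (fun X : ℕ => (NT (GoodAll D) X : ℝ) / (NT (AllE D) X : ℝ)) atTop (𝓝 (cE D))) ∧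
    ((∀ q, (Finset.univ.filter fun i => q ∈ ppr (D i)).card ≤ 2) → 0 < cE D) := by
  classical
  have hP := PP_pq D hD
  obtain ⟨L, hL, hN, hG, z, hz, s, hs⟩ := exists_field (insert w (PP D))
  have hzint : IsIntegral ℤ z := by
    refine ⟨Polynomial.X ^ 2 + Polynomial.X + 1, ?_, ?_⟩
    · monicity!
    · simp
      linear_combination hz
  obtain ⟨Z, hZz⟩ : ∃ Z : 𝓞 L, algebraMap (𝓞 L) L Z = z := ⟨⟨z, hzint⟩, rfl⟩
  have hinj : Function.Injective (algebraMap (𝓞 L) L) := RingOfIntegers.coe_injective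
  have hZ : Z * Z = -1 - Z := by
    apply hinj
    rw [map_mul, map_sub, map_neg, map_one, hZz, hz]
  have hhom : ∀ x : Ei, algebraMap (𝓞 L) L (hom Z hZ x) = hom z hz x := by
    intro x
    rw [hom_apply, hom_apply, map_add, map_mul, map_intCast, map_intCast, hZz]
  have hsint : ∀ q : Ei, ∃ t : 𝓞 L, q ∈ insert w (PP D) → t ^ 3 = hom Z hZ q := by
    intro q
    by_cases hq : q ∈ insert w (PP D)
    · have h1 : IsIntegral ℤ (s q) := by
        have h2 : IsIntegral ℤ (s q ^ 3) := by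
          rw [hs q hq, ← hhom]
          exact RingOfIntegers.isIntegral_coe _
        exact IsIntegral.of_pow (by norm_num) h2
      obtain ⟨t, ht⟩ : ∃ t : 𝓞 L, algebraMap (𝓞 L) L t = s q := ⟨⟨s q, h1⟩, rfl⟩
      refine ⟨t, fun _ => hinj ?_⟩
      rw [map_pow, hhom, ht]
      exact hs q hq
    · exact ⟨0, fun h => absurd h hq⟩
  choose t ht using hsint
  let E : Dat L (PP D) :=
    { Z := Z
      hZ := hZ
      s := t
      hw := ht w (Finset.mem_insert_self _ _)
      hs := fun q hq => ht q (Finset.mem_insert_of_mem hq) }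
  set k : ℝ := 2 * (Nat.card (HH E.Z) : ℝ) / (Nat.card Gal(L/ℚ) : ℝ) with hk
  have hkpos : 0 < k := by
    have h1 := Nat.card_pos (α := HH E.Z)
    have h2 := Nat.card_pos (α := Gal(L/ℚ))
    rw [hk]
    positivity
  have d1 := E.dens hP (fun _ => True) (fun _ => True) (fun π _ _ => Iff.rfl)
  have d2 := E.dens hP (fun x => okE D x.2 ∧ True) (AllE D) (fun π h1 h2 => by
    rw [all_iff D hD h1 h2]; simp)
  have d3 := E.dens hP (fun x => okE D x.2 ∧ ∀ i, NS cs (ppr (D i)) (ex (PP D) x.1)) (GoodAll D)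
    (fun π h1 h2 => goodall_iff D hD h1 h2)
  rw [← hk] at d1 d2 d3
  have c0 : Nat.card (PP D → ZMod 3) = 3 ^ (PP D).card := by
    rw [Nat.card_fun]; simp
  have c1 : Nat.card {x : (PP D → ZMod 3) × ZMod 3 // True} = 3 ^ ((PP D).card + 1) := by
    rw [Nat.card_congr (Equiv.subtypeUnivEquiv fun _ => trivial), Nat.card_prod, c0]
    simp [pow_succ]
  have c2 : Nat.card {x : (PP D → ZMod 3) × ZMod 3 // okE D x.2 ∧ True} =
      Nat.card {e // okE D e} * 3 ^ (PP D).card := by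
    rw [card_split _ _ (fun _ => True) (okE D), Nat.card_congr
      (Equiv.subtypeUnivEquiv (α := PP D → ZMod 3) fun _ => trivial), c0]
  have c3 := card_split (PP D → ZMod 3) (ZMod 3)
    (fun u => ∀ i, NS cs (ppr (D i)) (ex (PP D) u)) (okE D)
  rw [c1] at d1
  rw [c2] at d2
  rw [c3] at d3
  have h3p : (3 : ℝ) ^ (PP D).card ≠ 0 := by positivity
  have hpc : ∀ᶠ X : ℕ in atTop, (Nat.primeCounting X : ℝ) ≠ 0 := by
    filter_upwards [eventually_ge_atTop 2] with X hX
    have : Nat.primeCounting X ≠ 0 := by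
      rw [Ne, Nat.primeCounting_eq_zero_iff]
      omega
    exact_mod_cast this
  have hdiv : ∀ {A B : ℕ → ℕ} {a b : ℝ}, b ≠ 0 →
      Tendsto (fun X : ℕ => (A X : ℝ) / (Nat.primeCounting X : ℝ)) atTop (𝓝 a) →
      Tendsto (fun X : ℕ => (B X : ℝ) / (Nat.primeCounting X : ℝ)) atTop (𝓝 b) →
      Tendsto (fun X : ℕ => (A X : ℝ) / (B X : ℝ)) atTop (𝓝 (a / b)) := by
    intro A B a b hb hA hB
    refine (hA.div hB hb).congr' ?_
    filter_upwards [hpc] with X hX
    exact div_div_div_cancel_right₀ hX _ _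
  refine ⟨?_, ?_, ?_⟩
  · have hb : k * (((3 ^ ((PP D).card + 1) : ℕ) : ℝ) / 3 ^ ((PP D).card + 1)) ≠ 0 := by
      push_cast
      positivity
    have := hdiv hb d2 d1
    convert this using 2
    push_cast
    field_simp
    ring
  · intro hpos
    have hpos' : (0 : ℝ) < Nat.card {e // okE D e} := by exact_mod_cast hpos
    have hb : k * (((Nat.card {e // okE D e} * 3 ^ (PP D).card : ℕ) : ℝ) /
        3 ^ ((PP D).card + 1)) ≠ 0 := by
      push_cast
      positivity
    have := hdiv hb d3 d2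
    convert this using 2
    unfold cE
    push_cast
    field_simp
  · intro hcard
    obtain ⟨u, hu⟩ := exists_family cs (Finset.univ : Finset (Fin n)) (fun i => ppr (D i))
      (fun q => by convert hcard q)
    unfold cE
    refine div_pos ?_ (by positivity)
    have hne : Nonempty {u : PP D → ZMod 3 // ∀ i, NS cs (ppr (D i)) (ex (PP D) u)} := by
      refine ⟨⟨fun q => u q, fun i => (ns_congr fun q hq => ?_).1 (hu i (Finset.mem_univ _))⟩⟩
      unfold ex
      have hqP : q ∈ PP D := Finset.mem_biUnion.2 ⟨i, Finset.mem_univ _, hq⟩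
      rw [dif_pos hqP]
    have := Nat.card_pos (α := {u : PP D → ZMod 3 // ∀ i, NS cs (ppr (D i)) (ex (PP D) u)})
    exact_mod_cast this

end

end Q283.TC
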